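import Pool.Agent.Helper23.EC.DGoalsA

/-!
# Packet A5 (Part D of MP_ecc237_nt): the case `s = 0`, (D.5).
-/

set_option autoImplicit false

open MeasureTheory Filter Topology Set

namespace Pool.Agent.Helper10.EC.D_A5

open EC237

lemma KA_zero (w : ℂ) : KA w 0 = 0 := by simp [KA]

lemma KB_zero (w : ℂ) : KB w 0 = 0 := by simp [KB]

lemma As_zero (w : ℂ) : As w 0 = 0 := by
  ext n
  simp [As, gser, KA]

lemma Bs_zero (w : ℂ) : Bs w 0 = 0 := by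
  ext n
  simp [Bs, gser, KB]

lemma KAs_neg (w : ℂ) (v : SV) : KAs w (-v) = -KAs w v := by
  have h : KA w (-v.1) = -KA w v.1 := by
    simp [KA]; ring
  simp only [KAs, Prod.fst_neg, Prod.snd_neg, h, map_neg, Int.cast_neg]
  ring

lemma KBs_neg (w : ℂ) (v : SV) : KBs w (-v) = -KBs w v := by
  have h : KB w (-v.1) = -KB w v.1 := by
    simp [KB]; ring
  simp only [KBs, Prod.fst_neg, Prod.snd_neg, h, map_neg, Int.cast_neg]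
  ring

lemma KAs_add (w : ℂ) (u v : SV) : KAs w (u + v) = KAs w u + KAs w v := by
  have h : KA w (u.1 + v.1) = KA w u.1 + KA w v.1 := by
    simp [KA]; ring
  simp only [KAs, Prod.fst_add, Prod.snd_add, h, map_add, Int.cast_add]
  ring

lemma KBs_add (w : ℂ) (u v : SV) : KBs w (u + v) = KBs w u + KBs w v := by
  have h : KB w (u.1 + v.1) = KB w u.1 + KB w v.1 := by
    simp [KB]; ring
  simp only [KBs, Prod.fst_add, Prod.snd_add, h, map_add, Int.cast_add]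
  ring

lemma smul_C (c : ℂ) (f : PowerSeries ℂ) : c • f = PowerSeries.C c * f := by
  rw [PowerSeries.smul_eq_C_mul]

/-- the algebraic identity in a field -/
lemma key {F : Type} [Field F] [CharZero F] (W J m1 m3 l1 l3 : F) (hJ : J ≠ 0)
    (h1 : m1 ≠ 0) (h3 : m3 ≠ 0) (k1 : l1 ≠ 0) (k3 : l3 ≠ 0)
    (hM : -m1 + m3 ≠ 0) (hL : -l1 + l3 ≠ 0) :
    -(1 / 3 * W ^ 3) *
      ((-m1⁻¹ * l3⁻¹ - -l1⁻¹ * m3⁻¹) * (-m3⁻¹ * l1⁻¹ - -l3⁻¹ * m1⁻¹) * ((-m1 + m3)⁻¹ * (-l1 + l3)⁻¹) *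
        (-m1⁻¹ * -l1 + -l1⁻¹ * -m1 + (m3⁻¹ * l3 + l3⁻¹ * m3) + (-m3⁻¹ * -l3 + -l3⁻¹ * -m3) + (m1⁻¹ * l1 + l1⁻¹ * m1) +
          ((-m1 + m3)⁻¹ * (-l1 + l3) + (-l1 + l3)⁻¹ * (-m1 + m3)))) =
    -(-(J * W ^ 2) * ((-m1⁻¹ * l3⁻¹ - -l1⁻¹ * m3⁻¹) * ((-m1 + m3)⁻¹ * (-l1 + l3)⁻¹)) *
              (W / (2 * J) * ((-m3⁻¹) ^ 2 - (-l3⁻¹) ^ 2) - W / (2 * J) * (m1⁻¹ ^ 2 - l1⁻¹ ^ 2))) -
          -(J * W ^ 2) * ((-m3⁻¹ * l1⁻¹ - -l3⁻¹ * m1⁻¹) * (-(-m1 + m3)⁻¹ * -(-l1 + l3)⁻¹)) *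
            (W / (2 * J) * ((-m1⁻¹) ^ 2 - (-l1⁻¹) ^ 2) - W / (2 * J) * (m3⁻¹ ^ 2 - l3⁻¹ ^ 2)) +
        1 / 3 *
          ((W * (-m1⁻¹ * -l1⁻¹) * (W / 2 * (m3⁻¹ ^ 2 + l3⁻¹ ^ 2)) -
                    W * (m3⁻¹ * l3⁻¹) * (W / 2 * ((-m1⁻¹) ^ 2 + (-l1⁻¹) ^ 2)) +
                  (W * (m3⁻¹ * l3⁻¹) * (W / 2 * ((-m1 + m3)⁻¹ ^ 2 + (-l1 + l3)⁻¹ ^ 2)) -
                    W * ((-m1 + m3)⁻¹ * (-l1 + l3)⁻¹) * (W / 2 * (m3⁻¹ ^ 2 + l3⁻¹ ^ 2))) +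
                (W * ((-m1 + m3)⁻¹ * (-l1 + l3)⁻¹) * (W / 2 * ((-m1⁻¹) ^ 2 + (-l1⁻¹) ^ 2)) -
                  W * (-m1⁻¹ * -l1⁻¹) * (W / 2 * ((-m1 + m3)⁻¹ ^ 2 + (-l1 + l3)⁻¹ ^ 2)))) *
              (W * (-m3⁻¹ * -l3⁻¹) - W * (m1⁻¹ * l1⁻¹)) +
            (W * (-m3⁻¹ * -l3⁻¹) * (W / 2 * (m1⁻¹ ^ 2 + l1⁻¹ ^ 2)) -
                    W * (m1⁻¹ * l1⁻¹) * (W / 2 * ((-m3⁻¹) ^ 2 + (-l3⁻¹) ^ 2)) +
                  (W * (m1⁻¹ * l1⁻¹) * (W / 2 * ((-(-m1 + m3)⁻¹) ^ 2 + (-(-l1 + l3)⁻¹) ^ 2)) -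
                    W * (-(-m1 + m3)⁻¹ * -(-l1 + l3)⁻¹) * (W / 2 * (m1⁻¹ ^ 2 + l1⁻¹ ^ 2))) +
                (W * (-(-m1 + m3)⁻¹ * -(-l1 + l3)⁻¹) * (W / 2 * ((-m3⁻¹) ^ 2 + (-l3⁻¹) ^ 2)) -
                  W * (-m3⁻¹ * -l3⁻¹) * (W / 2 * ((-(-m1 + m3)⁻¹) ^ 2 + (-(-l1 + l3)⁻¹) ^ 2)))) *
              (W * (-m1⁻¹ * -l1⁻¹) - W * (m3⁻¹ * l3⁻¹))) +
      -(2 / 3 * W ^ 3) * ((m1⁻¹ * l3⁻¹ - l1⁻¹ * m3⁻¹) ^ 2 * (m1⁻¹ * m3⁻¹ + l1⁻¹ * l3⁻¹)) := by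
  field_simp
  ring

theorem thm (hA1 : EC237.A1) : EC237.A5 := by
  intro w hw v1 v3 h1 h3 h13
  obtain ⟨hK, hinv, hneg, -, -⟩ := hA1 w hw
  constructor
  swap
  · intro u
    have : Qs u v1 (-v1) v3 (-v3) = 0 := by
      simp only [Qs, add_neg_cancel, As_zero, Bs_zero, mul_zero, smul_zero]
    exact this
  have e1 : -v3 + v1 = -(-v1 + v3) := by abel
  obtain ⟨i1, j1⟩ := hinv v1 h1
  obtain ⟨i3, j3⟩ := hinv v3 h3
  obtain ⟨it, jt⟩ := hinv (-v1 + v3) h13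
  have n1 := hneg v1
  have n3 := hneg v3
  have nt := hneg (-v1 + v3)
  have e2 : -v1 + v3 + (-v3 + v1) = 0 := by abel
  have z1 : Ts w v1 (-v1) v3 (-v3) = 0 := by
    simp only [Ts, Pp, Ff, br, hh, dd, xx, add_neg_cancel, As_zero, Bs_zero, n1.1, n1.2, n3.1, n3.2,
      mul_zero, zero_mul, smul_zero, neg_zero, sub_zero, zero_add, smul_C]
    ring
  rw [Tt, z1, zero_add]
  rw [KAs_add, KAs_neg] at it
  rw [KBs_add, KBs_neg] at jt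
  simp only [Ts, Pp, Ff, br, hh, dd, xx, dQs, om, XX, Eo, e1, n1.1, n1.2, n3.1, n3.2, nt.1, nt.2,
    KAs_neg, KBs_neg, KAs_add, KBs_add, smul_C]
  generalize As w v1 = a1 at *
  generalize As w v3 = a3 at *
  generalize Bs w v1 = b1 at *
  generalize Bs w v3 = b3 at *
  generalize As w (-v1 + v3) = at' at *
  generalize Bs w (-v1 + v3) = bt at *
  generalize KAs w v1 = M1 at *
  generalize KAs w v3 = M3 at *
  generalize KBs w v1 = L1 at *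
  generalize KBs w v3 = L3 at *
  have hM1 : M1 ≠ 0 := fun h => by simp [h] at i1
  have hM3 : M3 ≠ 0 := fun h => by simp [h] at i3
  have hL1 : L1 ≠ 0 := fun h => by simp [h] at j1
  have hL3 : L3 ≠ 0 := fun h => by simp [h] at j3
  have hM : -M1 + M3 ≠ 0 := fun h => by simp [h] at it
  have hL : -L1 + L3 ≠ 0 := fun h => by simp [h] at jt
  let F := FractionRing (PowerSeries ℂ)
  have : CharZero F := charZero_of_injective_ringHom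
    (RingHom.injective ((algebraMap (PowerSeries ℂ) F).comp (PowerSeries.C (R := ℂ))))
  let φ : PowerSeries ℂ →+* F := algebraMap (PowerSeries ℂ) F
  have hφ : Function.Injective φ := IsFractionRing.injective (PowerSeries ℂ) F
  have hφ0 : ∀ x : PowerSeries ℂ, x ≠ 0 → φ x ≠ 0 := fun x hx h => hx (hφ (by rw [h, map_zero]))
  let ψ : ℂ →+* F := φ.comp (PowerSeries.C (R := ℂ))
  have hψ : ∀ c : ℂ, φ (PowerSeries.C c) = ψ c := fun c => rfl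
  have hI : ψ Complex.I ≠ 0 := by
    intro h
    have := (map_eq_zero ψ).1 h
    exact Complex.I_ne_zero this
  have inv' : ∀ x y : PowerSeries ℂ, x * y = 1 → φ y = (φ x)⁻¹ := by
    intro x y h
    have : φ x * φ y = 1 := by rw [← map_mul, h, map_one]
    exact eq_inv_of_mul_eq_one_right this
  have g1 := inv' _ _ i1
  have g3 := inv' _ _ i3
  have gt := inv' _ _ it
  have k1 := inv' _ _ j1
  have k3 := inv' _ _ j3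
  have kt := inv' _ _ jt
  apply hφ
  have hM1' := hφ0 _ hM1
  have hM3' := hφ0 _ hM3
  have hL1' := hφ0 _ hL1
  have hL3' := hφ0 _ hL3
  have hM' := hφ0 _ hM
  have hL' := hφ0 _ hL
  simp only [map_add, map_neg] at hM' hL' gt kt
  simp only [map_add, map_neg, map_mul, map_sub, map_pow, hψ, g1, g3, gt, k1, k3, kt, map_div₀, map_one,
    map_ofNat]
  exact key (ψ w) (ψ Complex.I) (φ M1) (φ M3) (φ L1) (φ L3) hI hM1' hM3' hL1' hL3' hM' hL'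

end Pool.Agent.Helper10.EC.D_A5
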