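import Pool.Agent.Helper23.EC.DGoalsA

/-!
# Packet B5 (Part D of MP_ecc237_nt): the bound for the coefficient of `x` of `P`.
-/

set_option autoImplicit false

open MeasureTheory Filter Topology Set

namespace Pool.Agent.Helper10.EC.D_B5

open EC237

lemma rk_pos (k : ℤ × ℤ) (h : k ≠ 0) : 0 < rk k := by
  unfold rk
  apply Real.sqrt_pos.2
  have : k.1 ≠ 0 ∨ k.2 ≠ 0 := by
    by_contra hc
    push Not at hc
    exact h (Prod.ext hc.1 hc.2)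
  rcases this with h1 | h1
  · have : (0:ℝ) < (k.1:ℝ) ^ 2 := by positivity
    positivity
  · have : (0:ℝ) < (k.2:ℝ) ^ 2 := by positivity
    positivity

lemma rk_nonneg (k : ℤ × ℤ) : 0 ≤ rk k := Real.sqrt_nonneg _

lemma pw_nonneg (k : ℤ × ℤ) : 0 ≤ pw k := Real.rpow_nonneg (rk_nonneg k) _

lemma As_of_zero (w : ℂ) (v : SV) (h : v.1 = 0) : As w v = 0 := by
  ext n
  simp [As, gser, KA, h]

lemma coeff_one_mul (f g : PowerSeries ℂ) : PowerSeries.coeff 1 (f * g) =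
    PowerSeries.coeff 0 f * PowerSeries.coeff 1 g + PowerSeries.coeff 1 f * PowerSeries.coeff 0 g := by
  rw [PowerSeries.coeff_mul]
  rw [Finset.Nat.sum_antidiagonal_eq_sum_range_succ_mk]
  simp [Finset.sum_range_succ]

theorem thm (_hA1 : EC237.A1) (hB1 : EC237.B1) (hB2 : EC237.B2) : EC237.B5 := by
  intro y0 hy0
  obtain ⟨c, C0, hc, hC0, hb1⟩ := hB1 y0 hy0
  obtain ⟨C, hC, hb2⟩ := hB2 y0 hy0
  refine ⟨C0 ^ 2 * (2 * C ^ 2), by positivity, ?_⟩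
  intro w hw v1 v2 ha1 ha2 h1 h2
  obtain ⟨-, hwn, -⟩ := hb1 w hw
  obtain ⟨hX, hAB⟩ := hb2 w hw
  have p1 := pw_nonneg v1.1
  have p2 := pw_nonneg v2.1
  have ps := pw_nonneg (v1.1 + v2.1)
  by_cases hs : v1.1 + v2.1 = 0
  · have : Pp w v1 v2 = 0 := by
      have h0 : As w (v1 + v2) = 0 := As_of_zero w _ (by simpa using hs)
      simp [Pp, h0]
    rw [this, map_zero, norm_zero]
    positivity
  obtain ⟨x0, x1, -⟩ := hX v1 v2 ha1 ha2 h1 h2 hs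
  have has : |(v1 + v2).2| ≤ 2 := by
    have : |v1.2 + v2.2| ≤ |v1.2| + |v2.2| := abs_add_le _ _
    simp only [Prod.snd_add]
    omega
  have hs' : (v1 + v2).1 ≠ 0 := by simpa using hs
  have q0 := hAB (v1 + v2) has hs' 0 (by norm_num)
  have q1 := hAB (v1 + v2) has hs' 1 (by norm_num)
  have hr : 0 < rk (v1.1 + v2.1) := rk_pos _ hs
  simp only [Prod.fst_add] at q0 q1
  set r := rk (v1.1 + v2.1) with hrdef
  have e1 : r ^ (1 / 2 : ℝ) * r ^ (-(2 + ((1:ℕ):ℝ))) = pw (v1.1 + v2.1) := by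
    rw [pw, ← hrdef, ← Real.rpow_add hr]
    norm_num
  have e2 : r ^ (-(1 / 2) : ℝ) * r ^ (-(2 + ((0:ℕ):ℝ))) = pw (v1.1 + v2.1) := by
    rw [pw, ← hrdef, ← Real.rpow_add hr]
    norm_num
  have hP : PowerSeries.coeff 1 (Pp w v1 v2) = -(Complex.I * w ^ 2) *
      (PowerSeries.coeff 0 (XX w v1 v2) * PowerSeries.coeff 1 (As w (v1 + v2) * Bs w (v1 + v2)) +
       PowerSeries.coeff 1 (XX w v1 v2) * PowerSeries.coeff 0 (As w (v1 + v2) * Bs w (v1 + v2))) := by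
    rw [Pp, PowerSeries.coeff_smul, coeff_one_mul, smul_eq_mul]
  rw [hP, norm_mul]
  have hwI : ‖-(Complex.I * w ^ 2)‖ ≤ C0 ^ 2 := by
    rw [norm_neg, norm_mul, Complex.norm_I, one_mul, norm_pow]
    exact pow_le_pow_left₀ (norm_nonneg _) hwn 2
  have hmain : ‖PowerSeries.coeff 0 (XX w v1 v2) * PowerSeries.coeff 1 (As w (v1 + v2) * Bs w (v1 + v2)) +
       PowerSeries.coeff 1 (XX w v1 v2) * PowerSeries.coeff 0 (As w (v1 + v2) * Bs w (v1 + v2))‖ ≤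
       2 * C ^ 2 * ((pw v1.1 + pw v2.1) * pw (v1.1 + v2.1)) := by
    refine (norm_add_le _ _).trans ?_
    rw [norm_mul, norm_mul]
    have t1 : ‖PowerSeries.coeff 0 (XX w v1 v2)‖ *
        ‖PowerSeries.coeff 1 (As w (v1 + v2) * Bs w (v1 + v2))‖ ≤
        (C * r ^ (1 / 2 : ℝ) * (pw v1.1 + pw v2.1)) * (C * r ^ (-(2 + ((1:ℕ):ℝ)))) :=
      mul_le_mul x0 q1 (norm_nonneg _) (by positivity)
    have t2 : ‖PowerSeries.coeff 1 (XX w v1 v2)‖ *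
        ‖PowerSeries.coeff 0 (As w (v1 + v2) * Bs w (v1 + v2))‖ ≤
        (C * r ^ (-(1 / 2) : ℝ) * (pw v1.1 + pw v2.1)) * (C * r ^ (-(2 + ((0:ℕ):ℝ)))) :=
      mul_le_mul x1 q0 (norm_nonneg _) (by positivity)
    have s1 : (C * r ^ (1 / 2 : ℝ) * (pw v1.1 + pw v2.1)) * (C * r ^ (-(2 + ((1:ℕ):ℝ)))) =
        C ^ 2 * ((pw v1.1 + pw v2.1) * pw (v1.1 + v2.1)) := by
      rw [← e1]; ring
    have s2 : (C * r ^ (-(1 / 2) : ℝ) * (pw v1.1 + pw v2.1)) * (C * r ^ (-(2 + ((0:ℕ):ℝ)))) =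
        C ^ 2 * ((pw v1.1 + pw v2.1) * pw (v1.1 + v2.1)) := by
      rw [← e2]; ring
    rw [s1] at t1
    rw [s2] at t2
    linarith
  calc ‖-(Complex.I * w ^ 2)‖ * _ ≤ C0 ^ 2 * (2 * C ^ 2 * ((pw v1.1 + pw v2.1) * pw (v1.1 + v2.1))) :=
        mul_le_mul hwI hmain (norm_nonneg _) (by positivity)
    _ ≤ _ := by
        have : 0 ≤ C0 ^ 2 * (2 * C ^ 2) * (pw v1.1 * pw v2.1) := by positivity
        nlinarith

end Pool.Agent.Helper10.EC.D_B5
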