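import Pool.Agent.Helper23.EC.DGoalsM

/-!
# Packet M1 (Part D of MP_ecc237_nt): weighted summability of the n-sums of `F`.
-/

set_option autoImplicit false

open MeasureTheory Filter Topology Set

namespace Pool.Agent.Helper10.EC.D_M1

open EC237

/-- `sqrt (1 + |m|)` -/
noncomputable def q (m : ℤ) : ℝ := Real.sqrt (1 + |(m:ℝ)|)

lemma q_one (m : ℤ) : 1 ≤ q m := by
  rw [q, Real.one_le_sqrt]
  linarith [abs_nonneg (m:ℝ)]

lemma q_sq (m : ℤ) : q m ^ 2 = 1 + |(m:ℝ)| := Real.sq_sqrt (by positivity)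

/-- the summable weight -/
noncomputable def W (m : ℤ) : ℝ := (q m ^ 3)⁻¹

lemma W_nonneg (m : ℤ) : 0 ≤ W m := by
  have := q_one m
  unfold W
  positivity

lemma W_eq (m : ℤ) : W m = (1 + |(m:ℝ)|) ^ (-(3 / 2) : ℝ) := by
  have h : (0:ℝ) ≤ 1 + |(m:ℝ)| := by positivity
  rw [W, q, Real.sqrt_eq_rpow, ← Real.rpow_natCast, ← Real.rpow_mul h, ← Real.rpow_neg h]
  norm_num

lemma summable_W : Summable W := by
  have h1 : Summable fun n : ℤ => |(n : ℝ)| ^ (-(3 / 2 : ℝ)) :=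
    Real.summable_abs_int_rpow (by norm_num)
  have h2 : Summable fun n : ℤ => if n = 0 then (1:ℝ) else 0 := (hasSum_ite_eq 0 (1:ℝ)).summable
  refine Summable.of_nonneg_of_le W_nonneg ?_ (h1.add h2)
  intro m
  rw [W_eq]
  by_cases hm : m = 0
  · subst hm
    simp
  · simp only [hm, if_false, add_zero]
    have : 0 < |(m:ℝ)| := abs_pos.2 (by exact_mod_cast hm)
    exact Real.rpow_le_rpow_of_nonpos this (by linarith) (by norm_num)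

/-- the equivalence `(m1,m2) ↦ (m1, m1+m2)` -/
def e1 : (ℤ × ℤ) ≃ (ℤ × ℤ) where
  toFun m := (m.1, m.1 + m.2)
  invFun m := (m.1, m.2 - m.1)
  left_inv m := by ext <;> simp
  right_inv m := by ext <;> simp

/-- the equivalence `(m1,m2) ↦ (m2, m1+m2)` -/
def e2 : (ℤ × ℤ) ≃ (ℤ × ℤ) where
  toFun m := (m.2, m.1 + m.2)
  invFun m := (m.2 - m.1, m.1)
  left_inv m := by ext <;> simp
  right_inv m := by ext <;> simp

lemma summable_maj : Summable fun m : ℤ × ℤ =>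
    W m.1 * W m.2 + W m.1 * W (m.1 + m.2) + W m.2 * W (m.1 + m.2) := by
  have h : Summable fun m : ℤ × ℤ => W m.1 * W m.2 :=
    summable_W.mul_of_nonneg summable_W W_nonneg W_nonneg
  have h1 := (e1.summable_iff (f := fun m : ℤ × ℤ => W m.1 * W m.2)).2 h
  have h2 := (e2.summable_iff (f := fun m : ℤ × ℤ => W m.1 * W m.2)).2 h
  exact (h.add h1).add h2

lemma exp_bound (c : ℝ) (hc : 0 < c) : ∃ K : ℝ, 0 < K ∧ ∀ m : ℤ, Real.exp (-(c * |(m:ℝ)|)) * q m ^ 8 ≤ K := by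
  refine ⟨24 * Real.exp c / c ^ 4, by positivity, ?_⟩
  intro m
  have h8 : q m ^ 8 = (1 + |(m:ℝ)|) ^ 4 := by
    rw [← q_sq]; ring
  rw [h8]
  set t := |(m:ℝ)| with ht
  have ht0 : 0 ≤ t := abs_nonneg _
  have h := Real.pow_div_factorial_le_exp (c * (1 + t)) (by positivity) 4
  have hf : ((Nat.factorial 4 : ℕ) : ℝ) = 24 := by norm_num [Nat.factorial]
  rw [hf, div_le_iff₀ (by norm_num)] at h
  rw [le_div_iff₀ (by positivity)]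
  have he : Real.exp (c * (1 + t)) = Real.exp c * Real.exp (c * t) := by
    rw [← Real.exp_add]; ring_nf
  rw [he] at h
  have hn : Real.exp (-(c * t)) * Real.exp (c * t) = 1 := by
    rw [← Real.exp_add]; simp
  calc Real.exp (-(c * t)) * (1 + t) ^ 4 * c ^ 4 = Real.exp (-(c * t)) * (c * (1 + t)) ^ 4 := by ring
    _ ≤ Real.exp (-(c * t)) * (Real.exp c * Real.exp (c * t) * 24) :=
        mul_le_mul_of_nonneg_left h (Real.exp_nonneg _)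
    _ = 24 * Real.exp c * (Real.exp (-(c * t)) * Real.exp (c * t)) := by ring
    _ = 24 * Real.exp c := by rw [hn, mul_one]

lemma pow_le (e a K : ℝ) (j : ℕ) (hj : j ≤ 8) (he : 0 ≤ e) (ha : 1 ≤ a) (h : e * a ^ 8 ≤ K) :
    e * a ^ j ≤ K :=
  (mul_le_mul_of_nonneg_left (pow_le_pow_right₀ ha hj) he).trans h

lemma T1 (a b t e K : ℝ) (ha : 1 ≤ a) (hb : 1 ≤ b) (ht : 1 ≤ t) (hab : a ≤ t * b) (he : 0 ≤ e)
    (h : e * b ^ 8 ≤ K) : e * (b ^ 2 / (a ^ 2 * t ^ 2)) * t ≤ K * ((a ^ 3)⁻¹ * (b ^ 3)⁻¹) := by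
  have h6 := pow_le e b K 6 (by norm_num) he hb h
  have e1 : e * (b ^ 2 / (a ^ 2 * t ^ 2)) * t = e * b ^ 2 / (a ^ 2 * t) := by
    field_simp
  have e2 : K * ((a ^ 3)⁻¹ * (b ^ 3)⁻¹) = K / (a ^ 3 * b ^ 3) := by
    field_simp
  rw [e1, e2, div_le_div_iff₀ (by positivity) (by positivity)]
  have : e * b ^ 5 * a ≤ K * t := by
    calc e * b ^ 5 * a ≤ e * b ^ 5 * (t * b) := mul_le_mul_of_nonneg_left hab (by positivity)
      _ = e * b ^ 6 * t := by ring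
      _ ≤ K * t := mul_le_mul_of_nonneg_right h6 (by linarith)
  calc e * b ^ 2 * (a ^ 3 * b ^ 3) = e * b ^ 5 * a * a ^ 2 := by ring
    _ ≤ K * t * a ^ 2 := mul_le_mul_of_nonneg_right this (by positivity)
    _ = K * (a ^ 2 * t) := by ring

lemma T3 (a b t e K : ℝ) (ha : 1 ≤ a) (hb : 1 ≤ b) (ht : 1 ≤ t) (hab : a ≤ t * b) (he : 0 ≤ e)
    (h : e * t ^ 8 ≤ K) : e * (t ^ 2 / (a ^ 2 * b ^ 2)) * t ≤ K * ((a ^ 3)⁻¹ * (t ^ 3)⁻¹) := by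
  have hK : 0 ≤ K := (by positivity : 0 ≤ e * t ^ 8).trans h
  have e1 : e * (t ^ 2 / (a ^ 2 * b ^ 2)) * t = e * t ^ 3 / (a ^ 2 * b ^ 2) := by
    field_simp
  have e2 : K * ((a ^ 3)⁻¹ * (t ^ 3)⁻¹) = K / (a ^ 3 * t ^ 3) := by
    field_simp
  rw [e1, e2, div_le_div_iff₀ (by positivity) (by positivity)]
  have h7 := pow_le e t K 7 (by norm_num) he ht h
  calc e * t ^ 3 * (a ^ 3 * t ^ 3) = e * t ^ 6 * a * a ^ 2 := by ring
    _ ≤ e * t ^ 6 * (t * b) * a ^ 2 := by gcongr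
    _ = (e * t ^ 7) * (b * a ^ 2) := by ring
    _ ≤ K * (b * a ^ 2) := by gcongr
    _ ≤ K * (b ^ 2 * a ^ 2) := by
        have : b ≤ b ^ 2 := by nlinarith
        gcongr
    _ = K * (a ^ 2 * b ^ 2) := by ring

lemma Tp (a b t e f K : ℝ) (ha : 1 ≤ a) (hb : 1 ≤ b) (htab : t ≤ a * b) (he : 0 ≤ e)
    (hf : 0 ≤ f) (h : e * a ^ 8 ≤ K) (h' : f * b ^ 8 ≤ K) : e * f * t ≤ K ^ 2 * ((a ^ 3)⁻¹ * (b ^ 3)⁻¹) := by
  have h4 := pow_le e a K 4 (by norm_num) he ha h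
  have h4' := pow_le f b K 4 (by norm_num) hf hb h'
  have hK : 0 ≤ K := (by positivity : 0 ≤ e * a ^ 8).trans h
  have e2 : K ^ 2 * ((a ^ 3)⁻¹ * (b ^ 3)⁻¹) = K ^ 2 / (a ^ 3 * b ^ 3) := by
    field_simp
  rw [e2, le_div_iff₀ (by positivity)]
  calc e * f * t * (a ^ 3 * b ^ 3) ≤ e * f * (a * b) * (a ^ 3 * b ^ 3) := by gcongr
    _ = (e * a ^ 4) * (f * b ^ 4) := by ring
    _ ≤ K * K := mul_le_mul h4 h4' (by positivity) hK
    _ = K ^ 2 := by ring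

lemma Ts' (b t e f K : ℝ) (hb : 1 ≤ b) (ht : 1 ≤ t) (he : 0 ≤ e)
    (hf : 0 ≤ f) (h : e * b ^ 8 ≤ K) (h' : f * t ^ 8 ≤ K) : e * f * t ≤ K ^ 2 * ((b ^ 3)⁻¹ * (t ^ 3)⁻¹) := by
  have h4 := pow_le e b K 3 (by norm_num) he hb h
  have h4' := pow_le f t K 4 (by norm_num) hf ht h'
  have hK : 0 ≤ K := (by positivity : 0 ≤ e * b ^ 8).trans h
  have e2 : K ^ 2 * ((b ^ 3)⁻¹ * (t ^ 3)⁻¹) = K ^ 2 / (b ^ 3 * t ^ 3) := by
    field_simp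
  rw [e2, le_div_iff₀ (by positivity)]
  calc e * f * t * (b ^ 3 * t ^ 3) = (e * b ^ 3) * (f * t ^ 4) := by ring
    _ ≤ K * K := mul_le_mul h4 h4' (by positivity) hK
    _ = K ^ 2 := by ring

lemma qle (x y z : ℤ) (h : |(x:ℝ)| ≤ |(y:ℝ)| + |(z:ℝ)|) : q x ≤ q y * q z := by
  rw [q, q, q, ← Real.sqrt_mul (by positivity)]
  apply Real.sqrt_le_sqrt
  have h1 := abs_nonneg (y:ℝ)
  have h2 := abs_nonneg (z:ℝ)
  nlinarith

/-- bound of a product `(v - v') * d` -/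
lemma prodb (u v : ℂ) (X Y Z D E e C C' : ℝ) (hC' : 0 < C')
    (h : ‖u‖ ≤ C' * (1 + X) / (Y * Z)) (hX : 1 + X ≤ D) (hYZ : 0 < Y * Z)
    (hv : ‖v‖ ≤ C * e) (hE : D / (Y * Z) = E) (hE0 : 0 ≤ E) : ‖u * v‖ ≤ C' * C * (e * E) := by
  rw [norm_mul]
  have h1 : ‖u‖ ≤ C' * E := by
    refine h.trans ?_
    rw [← hE, mul_div_assoc]
    gcongr
  calc ‖u‖ * ‖v‖ ≤ (C' * E) * (C * e) := mul_le_mul h1 hv (norm_nonneg _) (by positivity)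
    _ = C' * C * (e * E) := by ring

theorem thm (hN3 : EC237.N3) (hN4 : EC237.N4) (hN7 : EC237.N7) (hN8 : EC237.N8) : EC237.M1 := by
  intro y hy r1 r2 a1 a2 ha1 ha2 ha3 k hk
  have n3 := hN3 y hy
  have n4 := hN4 y hy
  obtain ⟨C, c, hC, hc, n7⟩ := hN7 y hy
  obtain ⟨C', hC', n8⟩ := hN8 y hy
  obtain ⟨K, hK, kb⟩ := exp_bound c hc
  have hz : ∀ (r m al : ℤ), (m - r) % 3 ≠ 0 → ∀ i : ℕ, hS y r m al i = 0 ∧ dS y r m al i = 0 := by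
    intro r m al h i
    obtain ⟨-, -, -, -, -, -, -, -, -, -, -, hz⟩ := n4 r m al
    exact ⟨(hz h i).1, (hz h i).2.1⟩
  refine Summable.of_nonneg_of_le (fun m => by positivity) ?_
    (summable_maj.mul_left (2 * (C' * C * K) + 2 * (C ^ 2 * K ^ 2)))
  rintro ⟨m1, m2⟩
  simp only
  have hW1 := W_nonneg m1
  have hW2 := W_nonneg m2
  have hWs := W_nonneg (m1 + m2)
  have hM : 0 ≤ 2 * (C' * C * K) + 2 * (C ^ 2 * K ^ 2) := by positivity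
  by_cases hcong : (m1 - r1) % 3 = 0 ∧ (m2 - r2) % 3 = 0
  swap
  · -- all terms vanish
    have hf : fS y r1 r2 m1 m2 a1 a2 k = 0 := by
      obtain ⟨-, f0, f2⟩ := n3 r1 r2 m1 m2 a1 a2
      by_cases h1 : (m1 - r1) % 3 = 0
      · have h2 : (m2 - r2) % 3 ≠ 0 := fun h => hcong ⟨h1, h⟩
        have hs : (m1 + m2 - (r1 + r2)) % 3 ≠ 0 := by omega
        have z2 := hz r2 m2 a2 h2
        have zs := hz (r1 + r2) (m1 + m2) (a1 + a2) hs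
        rcases hk with rfl | rfl
        · rw [f0]; simp [z2, zs]
        · rw [f2]; simp [z2, zs]
      · have z1 := hz r1 m1 a1 h1
        by_cases h2 : (m2 - r2) % 3 = 0
        · have hs : (m1 + m2 - (r1 + r2)) % 3 ≠ 0 := by omega
          have zs := hz (r1 + r2) (m1 + m2) (a1 + a2) hs
          rcases hk with rfl | rfl
          · rw [f0]; simp [z1, zs]
          · rw [f2]; simp [z1, zs]
        · have z2 := hz r2 m2 a2 h2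
          rcases hk with rfl | rfl
          · rw [f0]; simp [z1, z2]
          · rw [f2]; simp [z1, z2]
    rw [hf, norm_zero, zero_mul]
    positivity
  obtain ⟨c1, c2⟩ := hcong
  have cs : (m1 + m2 - (r1 + r2)) % 3 = 0 := by omega
  have ht : (1 + |((m1:ℝ) + m2)|) ^ (1 / 2 : ℝ) = q (m1 + m2) := by
    rw [q, Real.sqrt_eq_rpow]; push_cast; ring_nf
  rw [ht]
  set a := q m1 with hadef
  set b := q m2 with hbdef
  set t := q (m1 + m2) with htdef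
  have a1' : 1 ≤ a := q_one _
  have b1' : 1 ≤ b := q_one _
  have t1' : 1 ≤ t := q_one _
  have hm1s : ((m1 + m2 : ℤ) : ℝ) = (m1:ℝ) + m2 := by push_cast; ring
  have ab1 : |(m1:ℝ)| ≤ |((m1 + m2 : ℤ) : ℝ)| + |(m2:ℝ)| := by
    rw [hm1s]
    have := abs_sub ((m1:ℝ) + m2) (m2:ℝ)
    simpa using this
  have ab2 : |(m2:ℝ)| ≤ |((m1 + m2 : ℤ) : ℝ)| + |(m1:ℝ)| := by
    rw [hm1s]
    have := abs_sub ((m1:ℝ) + m2) (m1:ℝ)
    simpa using this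
  have ab3 : |((m1 + m2 : ℤ) : ℝ)| ≤ |(m1:ℝ)| + |(m2:ℝ)| := by
    rw [hm1s]; exact abs_add_le _ _
  have hab : a ≤ t * b := qle _ _ _ ab1
  have hba : b ≤ t * a := qle _ _ _ ab2
  have htab : t ≤ a * b := qle _ _ _ ab3
  have sa : 1 + |(m1:ℝ)| = a ^ 2 := (q_sq _).symm
  have sb : 1 + |(m2:ℝ)| = b ^ 2 := (q_sq _).symm
  have st : 1 + |((m1 + m2 : ℤ) : ℝ)| = t ^ 2 := (q_sq _).symm
  have E1 := kb m1
  have E2 := kb m2
  have Es := kb (m1 + m2)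
  set e1 := Real.exp (-(c * |(m1:ℝ)|)) with he1
  set e2 := Real.exp (-(c * |(m2:ℝ)|)) with he2
  set es := Real.exp (-(c * |((m1 + m2 : ℤ) : ℝ)|)) with hes
  have p1 : 0 ≤ e1 := Real.exp_nonneg _
  have p2 : 0 ≤ e2 := Real.exp_nonneg _
  have ps : 0 ≤ es := Real.exp_nonneg _
  obtain ⟨-, -, H1, D1', D1'', -⟩ := n7 r1 m1 a1 ha1
  obtain ⟨-, -, H2, D2', D2'', -⟩ := n7 r2 m2 a2 ha2
  obtain ⟨-, -, Hs, Ds', Ds'', -⟩ := n7 (r1 + r2) (m1 + m2) (a1 + a2) ha3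
  have V1s := n8 r1 m1 a1 (r1 + r2) (m1 + m2) (a1 + a2) ha1 ha3 c1 cs
  have Vs2 := n8 (r1 + r2) (m1 + m2) (a1 + a2) r2 m2 a2 ha3 ha2 cs c2
  have V21 := n8 r2 m2 a2 r1 m1 a1 ha2 ha1 c2 c1
  have X1 : 1 + |(|(m1:ℝ)| - |((m1 + m2 : ℤ) : ℝ)|)| ≤ b ^ 2 := by
    rw [← sb]
    have h := abs_abs_sub_abs_le (m1:ℝ) ((m1 + m2 : ℤ) : ℝ)
    have h' : (m1:ℝ) - ((m1 + m2 : ℤ) : ℝ) = -(m2:ℝ) := by rw [hm1s]; ring
    rw [h', abs_neg] at h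
    linarith
  have X2 : 1 + |(|((m1 + m2 : ℤ) : ℝ)| - |(m2:ℝ)|)| ≤ a ^ 2 := by
    rw [← sa]
    have h := abs_abs_sub_abs_le ((m1 + m2 : ℤ) : ℝ) (m2:ℝ)
    have h' : ((m1 + m2 : ℤ) : ℝ) - (m2:ℝ) = (m1:ℝ) := by rw [hm1s]; ring
    rw [h'] at h
    linarith
  have X3 : 1 + |(|(m2:ℝ)| - |(m1:ℝ)|)| ≤ t ^ 2 := by
    rw [← st]
    have h := abs_abs_sub_abs_le (m2:ℝ) (-(m1:ℝ))
    have h' : (m2:ℝ) - -(m1:ℝ) = ((m1 + m2 : ℤ) : ℝ) := by rw [hm1s]; ring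
    rw [h', abs_neg] at h
    linarith
  have W12 : W m1 * W m2 = (a ^ 3)⁻¹ * (b ^ 3)⁻¹ := rfl
  have W1s : W m1 * W (m1 + m2) = (a ^ 3)⁻¹ * (t ^ 3)⁻¹ := rfl
  have W2s : W m2 * W (m1 + m2) = (b ^ 3)⁻¹ * (t ^ 3)⁻¹ := rfl
  have L1 : ∀ d : ℂ, ‖d‖ ≤ C * e2 →
      ‖(hS y r1 m1 a1 0 - hS y (r1 + r2) (m1 + m2) (a1 + a2) 0) * d‖ * t ≤
        C' * C * K * (W m1 * W m2) := by
    intro d hd
    have h := prodb _ d _ (1 + |(m1:ℝ)|) (1 + |((m1 + m2 : ℤ) : ℝ)|) (b ^ 2) (b ^ 2 / (a ^ 2 * t ^ 2))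
      e2 C C' hC' V1s X1 (by positivity) hd (by rw [sa, st]) (by positivity)
    calc _ ≤ C' * C * (e2 * (b ^ 2 / (a ^ 2 * t ^ 2))) * t := by gcongr
      _ = C' * C * (e2 * (b ^ 2 / (a ^ 2 * t ^ 2)) * t) := by ring
      _ ≤ C' * C * (K * ((a ^ 3)⁻¹ * (b ^ 3)⁻¹)) := by
          exact mul_le_mul_of_nonneg_left (T1 a b t e2 K a1' b1' t1' hab p2 E2) (by positivity)
      _ = C' * C * K * (W m1 * W m2) := by rw [W12]; ring
  have L2 : ∀ d : ℂ, ‖d‖ ≤ C * e1 →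
      ‖(hS y (r1 + r2) (m1 + m2) (a1 + a2) 0 - hS y r2 m2 a2 0) * d‖ * t ≤
        C' * C * K * (W m1 * W m2) := by
    intro d hd
    have h := prodb _ d _ (1 + |((m1 + m2 : ℤ) : ℝ)|) (1 + |(m2:ℝ)|) (a ^ 2) (a ^ 2 / (b ^ 2 * t ^ 2))
      e1 C C' hC' Vs2 X2 (by positivity) hd (by rw [sb, st]; ring_nf) (by positivity)
    calc _ ≤ C' * C * (e1 * (a ^ 2 / (b ^ 2 * t ^ 2))) * t := by gcongr
      _ = C' * C * (e1 * (a ^ 2 / (b ^ 2 * t ^ 2)) * t) := by ring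
      _ ≤ C' * C * (K * ((b ^ 3)⁻¹ * (a ^ 3)⁻¹)) := by
          exact mul_le_mul_of_nonneg_left (T1 b a t e1 K b1' a1' t1' hba p1 E1) (by positivity)
      _ = C' * C * K * (W m1 * W m2) := by rw [W12]; ring
  have L3 : ∀ d : ℂ, ‖d‖ ≤ C * es →
      ‖(hS y r2 m2 a2 0 - hS y r1 m1 a1 0) * d‖ * t ≤ C' * C * K * (W m1 * W (m1 + m2)) := by
    intro d hd
    have h := prodb _ d _ (1 + |(m2:ℝ)|) (1 + |(m1:ℝ)|) (t ^ 2) (t ^ 2 / (a ^ 2 * b ^ 2))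
      es C C' hC' V21 X3 (by positivity) hd (by rw [sa, sb]; ring_nf) (by positivity)
    calc _ ≤ C' * C * (es * (t ^ 2 / (a ^ 2 * b ^ 2))) * t := by gcongr
      _ = C' * C * (es * (t ^ 2 / (a ^ 2 * b ^ 2)) * t) := by ring
      _ ≤ C' * C * (K * ((a ^ 3)⁻¹ * (t ^ 3)⁻¹)) := by
          exact mul_le_mul_of_nonneg_left (T3 a b t es K a1' b1' t1' hab ps Es) (by positivity)
      _ = C' * C * K * (W m1 * W (m1 + m2)) := by rw [W1s]; ring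
  have P12 : ∀ u v : ℂ, ‖u‖ ≤ C * e1 → ‖v‖ ≤ C * e2 → ‖u * v‖ * t ≤ C ^ 2 * K ^ 2 * (W m1 * W m2) := by
    intro u v hu hv
    rw [norm_mul]
    calc ‖u‖ * ‖v‖ * t ≤ (C * e1) * (C * e2) * t := by gcongr
      _ = C ^ 2 * (e1 * e2 * t) := by ring
      _ ≤ C ^ 2 * (K ^ 2 * ((a ^ 3)⁻¹ * (b ^ 3)⁻¹)) := by
          exact mul_le_mul_of_nonneg_left (Tp a b t e1 e2 K a1' b1' htab p1 p2 E1 E2) (by positivity)
      _ = _ := by rw [W12]; ring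
  have P1s : ∀ u v : ℂ, ‖u‖ ≤ C * e1 → ‖v‖ ≤ C * es →
      ‖u * v‖ * t ≤ C ^ 2 * K ^ 2 * (W m1 * W (m1 + m2)) := by
    intro u v hu hv
    rw [norm_mul]
    calc ‖u‖ * ‖v‖ * t ≤ (C * e1) * (C * es) * t := by gcongr
      _ = C ^ 2 * (e1 * es * t) := by ring
      _ ≤ C ^ 2 * (K ^ 2 * ((a ^ 3)⁻¹ * (t ^ 3)⁻¹)) := by
          exact mul_le_mul_of_nonneg_left (Ts' a t e1 es K a1' t1' p1 ps E1 Es) (by positivity)
      _ = _ := by rw [W1s]; ring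
  have P2s : ∀ u v : ℂ, ‖u‖ ≤ C * e2 → ‖v‖ ≤ C * es →
      ‖u * v‖ * t ≤ C ^ 2 * K ^ 2 * (W m2 * W (m1 + m2)) := by
    intro u v hu hv
    rw [norm_mul]
    calc ‖u‖ * ‖v‖ * t ≤ (C * e2) * (C * es) * t := by gcongr
      _ = C ^ 2 * (e2 * es * t) := by ring
      _ ≤ C ^ 2 * (K ^ 2 * ((b ^ 3)⁻¹ * (t ^ 3)⁻¹)) := by
          exact mul_le_mul_of_nonneg_left (Ts' b t e2 es K b1' t1' p2 ps E2 Es) (by positivity)
      _ = _ := by rw [W2s]; ring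
  obtain ⟨-, f0, f2⟩ := n3 r1 r2 m1 m2 a1 a2
  have q12 : 0 ≤ W m1 * W m2 := mul_nonneg hW1 hW2
  have q1s : 0 ≤ W m1 * W (m1 + m2) := mul_nonneg hW1 hWs
  have q2s : 0 ≤ W m2 * W (m1 + m2) := mul_nonneg hW2 hWs
  have cc1 : 0 ≤ C' * C * K := by positivity
  have cc2 : 0 ≤ C ^ 2 * K ^ 2 := by positivity
  have t0 : 0 ≤ t := by linarith
  have g0 := mul_nonneg cc1 q12
  have g1 := mul_nonneg cc1 q1s
  have g2 := mul_nonneg cc1 q2s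
  have g3 := mul_nonneg cc2 q12
  have g4 := mul_nonneg cc2 q1s
  have g5 := mul_nonneg cc2 q2s
  have hexp : (2 * (C' * C * K) + 2 * (C ^ 2 * K ^ 2)) *
      (W m1 * W m2 + W m1 * W (m1 + m2) + W m2 * W (m1 + m2)) =
      2 * (C' * C * K * (W m1 * W m2)) + 2 * (C' * C * K * (W m1 * W (m1 + m2))) +
      2 * (C' * C * K * (W m2 * W (m1 + m2))) + 2 * (C ^ 2 * K ^ 2 * (W m1 * W m2)) +
      2 * (C ^ 2 * K ^ 2 * (W m1 * W (m1 + m2))) + 2 * (C ^ 2 * K ^ 2 * (W m2 * W (m1 + m2))) := by ring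
  rcases hk with rfl | rfl
  · have e : fS y r1 r2 m1 m2 a1 a2 0 =
        (hS y r1 m1 a1 0 - hS y (r1 + r2) (m1 + m2) (a1 + a2) 0) * dS y r2 m2 a2 0 +
        (hS y (r1 + r2) (m1 + m2) (a1 + a2) 0 - hS y r2 m2 a2 0) * dS y r1 m1 a1 0 +
        (hS y r2 m2 a2 0 - hS y r1 m1 a1 0) * dS y (r1 + r2) (m1 + m2) (a1 + a2) 0 := by
      rw [f0]; ring
    have l1 := L1 _ D2'
    have l2 := L2 _ D1'
    have l3 := L3 _ Ds'
    have hn := norm_add₃_le (a := (hS y r1 m1 a1 0 - hS y (r1 + r2) (m1 + m2) (a1 + a2) 0) * dS y r2 m2 a2 0)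
      (b := (hS y (r1 + r2) (m1 + m2) (a1 + a2) 0 - hS y r2 m2 a2 0) * dS y r1 m1 a1 0)
      (c := (hS y r2 m2 a2 0 - hS y r1 m1 a1 0) * dS y (r1 + r2) (m1 + m2) (a1 + a2) 0)
    rw [← e] at hn
    have hn' := mul_le_mul_of_nonneg_right hn t0
    rw [add_mul, add_mul] at hn'
    rw [hexp]
    linarith
  · have e : fS y r1 r2 m1 m2 a1 a2 2 =
        ((hS y r1 m1 a1 0 - hS y (r1 + r2) (m1 + m2) (a1 + a2) 0) * dS y r2 m2 a2 2 +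
        (hS y (r1 + r2) (m1 + m2) (a1 + a2) 0 - hS y r2 m2 a2 0) * dS y r1 m1 a1 2 +
        (hS y r2 m2 a2 0 - hS y r1 m1 a1 0) * dS y (r1 + r2) (m1 + m2) (a1 + a2) 2) +
        ((-(dS y r1 m1 a1 0 * hS y r2 m2 a2 2) + hS y r1 m1 a1 2 * dS y r2 m2 a2 0) +
         (-(dS y r2 m2 a2 0 * hS y (r1 + r2) (m1 + m2) (a1 + a2) 2) +
          hS y r2 m2 a2 2 * dS y (r1 + r2) (m1 + m2) (a1 + a2) 0) +
         (-(hS y r1 m1 a1 2 * dS y (r1 + r2) (m1 + m2) (a1 + a2) 0) +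
          dS y r1 m1 a1 0 * hS y (r1 + r2) (m1 + m2) (a1 + a2) 2)) := by
      rw [f2]; ring
    have l1 := L1 _ D2''
    have l2 := L2 _ D1''
    have l3 := L3 _ Ds''
    have k1 := P12 _ _ D1' H2
    have k2 := P12 _ _ H1 D2'
    have k3 := P2s _ _ D2' Hs
    have k4 := P2s _ _ H2 Ds'
    have k5 := P1s _ _ H1 Ds'
    have k6 := P1s _ _ D1' Hs
    rw [e]
    generalize (hS y r1 m1 a1 0 - hS y (r1 + r2) (m1 + m2) (a1 + a2) 0) * dS y r2 m2 a2 2 = z1 at *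
    generalize (hS y (r1 + r2) (m1 + m2) (a1 + a2) 0 - hS y r2 m2 a2 0) * dS y r1 m1 a1 2 = z2 at *
    generalize (hS y r2 m2 a2 0 - hS y r1 m1 a1 0) * dS y (r1 + r2) (m1 + m2) (a1 + a2) 2 = z3 at *
    generalize dS y r1 m1 a1 0 * hS y r2 m2 a2 2 = w1 at *
    generalize hS y r1 m1 a1 2 * dS y r2 m2 a2 0 = w2 at *
    generalize dS y r2 m2 a2 0 * hS y (r1 + r2) (m1 + m2) (a1 + a2) 2 = w3 at *
    generalize hS y r2 m2 a2 2 * dS y (r1 + r2) (m1 + m2) (a1 + a2) 0 = w4 at *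
    generalize hS y r1 m1 a1 2 * dS y (r1 + r2) (m1 + m2) (a1 + a2) 0 = w5 at *
    generalize dS y r1 m1 a1 0 * hS y (r1 + r2) (m1 + m2) (a1 + a2) 2 = w6 at *
    have hn1 := norm_add_le (z1 + z2 + z3) ((-w1 + w2) + (-w3 + w4) + (-w5 + w6))
    have hn2 := norm_add₃_le (a := z1) (b := z2) (c := z3)
    have hn3 := norm_add₃_le (a := -w1 + w2) (b := -w3 + w4) (c := -w5 + w6)
    have hn4 := norm_add_le (-w1) w2
    have hn5 := norm_add_le (-w3) w4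
    have hn6 := norm_add_le (-w5) w6
    rw [norm_neg] at hn4 hn5 hn6
    have htot : ‖z1 + z2 + z3 + ((-w1 + w2) + (-w3 + w4) + (-w5 + w6))‖ ≤
        ‖z1‖ + ‖z2‖ + ‖z3‖ + ‖w1‖ + ‖w2‖ + ‖w3‖ + ‖w4‖ + ‖w5‖ + ‖w6‖ := by linarith
    have hn' := mul_le_mul_of_nonneg_right htot t0
    simp only [add_mul] at hn'
    rw [hexp]
    linarith

end Pool.Agent.Helper10.EC.D_M1
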