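import Pool.Agent.Helper23.EC.DGoalsM

/-!
# Packet MVB (Part D of MP_ecc237_nt): the `F`-part of family B vanishes, unrotated term.
-/

set_option autoImplicit false

open MeasureTheory Filter Topology Set

namespace Pool.Agent.Helper10.EC.D_MVB

open EC237

/-! ### telescoping -/

lemma sum_tel (u : ℤ → ℂ) (N : ℕ) :
    ∑ m ∈ Finset.Ico (-(N:ℤ)) N, (u m - u (m + 1)) = u (-(N:ℤ)) - u N := by
  induction N with
  | zero => simp
  | succ N ih =>
    have hI : Finset.Ico (-((N + 1 : ℕ):ℤ)) ((N + 1 : ℕ):ℤ) =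
        insert (-((N:ℤ) + 1)) (insert (N:ℤ) (Finset.Ico (-(N:ℤ)) N)) := by
      ext x
      simp only [Finset.mem_Ico, Finset.mem_insert, Nat.cast_add, Nat.cast_one]
      omega
    rw [hI, Finset.sum_insert (by simp only [Finset.mem_insert, Finset.mem_Ico]; omega),
      Finset.sum_insert (by simp), ih]
    have e1 : -((N:ℤ) + 1) + 1 = -(N:ℤ) := by ring
    rw [e1]
    push_cast
    have e2 : -((N:ℤ) + 1) = -1 - (N:ℤ) := by ring
    simp only [e2]
    ring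

lemma tendsto_add (g : ℤ → ℂ) (hg : Tendsto g atTop (𝓝 0)) (s : ℤ) :
    Tendsto (fun N : ℕ => g ((N:ℤ) + s)) atTop (𝓝 0) :=
  hg.comp (tendsto_atTop_add_const_right _ _ tendsto_natCast_atTop_atTop)

lemma tendsto_neg_add (g : ℤ → ℂ) (hg : Tendsto g atBot (𝓝 0)) (s : ℤ) :
    Tendsto (fun N : ℕ => g (-(N:ℤ) + s)) atTop (𝓝 0) :=
  hg.comp (tendsto_atBot_add_const_right _ _
    (tendsto_neg_atTop_atBot.comp tendsto_natCast_atTop_atTop))

lemma tele (g : ℤ → ℂ) (h1 : Tendsto g atTop (𝓝 0)) (h2 : Tendsto g atBot (𝓝 0)) (s : ℤ) :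
    Tendsto (fun N : ℕ => ∑ m ∈ Finset.Ico (-(N:ℤ)) N, (g m - g (m + s))) atTop (𝓝 0) := by
  have key : ∀ s : ℤ, Tendsto (fun N : ℕ => ∑ m ∈ Finset.Ico (-(N:ℤ)) N,
      (g (m + s) - g (m + s + 1))) atTop (𝓝 0) := by
    intro s
    have e : ∀ N : ℕ, ∑ m ∈ Finset.Ico (-(N:ℤ)) N, (g (m + s) - g (m + s + 1)) =
        g (-(N:ℤ) + s) - g ((N:ℤ) + s) := by
      intro N
      have := sum_tel (fun m => g (m + s)) N
      rw [← this]
      apply Finset.sum_congr rfl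
      intro x _
      rw [add_right_comm]
    simp only [e]
    simpa using (tendsto_neg_add g h2 s).sub (tendsto_add g h1 s)
  induction s using Int.induction_on with
  | zero => simp
  | succ s ih =>
    have := ih.add (key s)
    rw [add_zero] at this
    refine this.congr ?_
    intro N
    rw [← Finset.sum_add_distrib]
    apply Finset.sum_congr rfl
    intro x _
    rw [← add_assoc]
    ring
  | pred s ih =>
    have := ih.sub (key (-(s:ℤ) - 1))
    rw [sub_zero] at this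
    refine this.congr ?_
    intro N
    rw [← Finset.sum_sub_distrib]
    apply Finset.sum_congr rfl
    intro x _
    have e : x + (-(s:ℤ) - 1) + 1 = x + -(s:ℤ) := by ring
    rw [e]
    ring

lemma tsum_tele (g : ℤ → ℂ) (h1 : Tendsto g atTop (𝓝 0)) (h2 : Tendsto g atBot (𝓝 0)) (s : ℤ)
    (hs : Summable fun m => g m - g (m + s)) : ∑' m, (g m - g (m + s)) = 0 := by
  have h := hs.hasSum.comp (Finset.tendsto_Ico_neg (R := ℤ))
  exact tendsto_nhds_unique h (tele g h1 h2 s)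

/-! ### constants -/

lemma As_const (w : ℂ) (v : SV) (h : v.2 = 0) : As w v = PowerSeries.C (KA w v.1)⁻¹ := by
  ext n
  rw [As, gser, PowerSeries.coeff_mk, h, PowerSeries.coeff_C]
  rcases Nat.eq_zero_or_pos n with hn | hn
  · subst hn; simp
  · rw [if_neg (by omega)]
    simp [hn.ne']

lemma Bs_const (w : ℂ) (v : SV) (h : v.2 = 0) : Bs w v = PowerSeries.C (KB w v.1)⁻¹ := by
  ext n
  rw [Bs, gser, PowerSeries.coeff_mk, h, PowerSeries.coeff_C]
  rcases Nat.eq_zero_or_pos n with hn | hn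
  · subst hn; simp
  · rw [if_neg (by omega)]
    simp [hn.ne']

lemma Ff_const (w : ℂ) (v1 v2 : SV) (h1 : v1.2 = 0) (h2 : v2.2 = 0) :
    PowerSeries.coeff 2 (Ff w v1 v2) = 0 := by
  have hs : (v1 + v2).2 = 0 := by simp [h1, h2]
  simp only [Ff, br, hh, dd, As_const w v1 h1, As_const w v2 h2, As_const w _ hs,
    Bs_const w v1 h1, Bs_const w v2 h2, Bs_const w _ hs, PowerSeries.smul_eq_C_mul,
    ← map_mul, ← map_add, ← map_sub, ← map_pow]
  rw [PowerSeries.coeff_C, if_neg (by norm_num)]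

lemma fS_const (y : ℝ) (r1 r2 m1 m2 : ℤ) : fS y r1 r2 m1 m2 0 0 2 = 0 := by
  rw [fS]
  have : ∀ q : ℤ × ℤ, (if InCl r1 (q.1, m1) ∧ InCl r2 (q.2, m2) then
      PowerSeries.coeff 2 (Ff (y:ℂ) ((q.1, m1), 0) ((q.2, m2), 0)) else 0) = 0 := by
    intro q
    rw [Ff_const _ _ _ rfl rfl, ite_self]
  simp only [this, tsum_zero]

/-- the change of variables of step (c) -/
def ev : (ℤ × ℤ × ℤ) ≃ (ℤ × ℤ × ℤ) where
  toFun m := (-m.2.1, m.1 + 2 * m.2.1, m.2.2)
  invFun m := (m.2.1 + 2 * m.1, -m.1, m.2.2)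
  left_inv m := by
    ext <;> simp
  right_inv m := by
    ext <;> simp

theorem thm (hN4 : EC237.N4) (hN5 : EC237.N5) (hN7 : EC237.N7) (hM3 : EC237.M3)
    (hM4 : EC237.M4) : EC237.MVB := by
  intro y hy
  have n4 := hN4 y hy
  have n5 := hN5 y hy
  obtain ⟨C, c, hC, hc, n7⟩ := hN7 y hy
  -- the function g
  set g : ℤ → ℂ := fun m => hS y 5 m 0 0 with hg
  have hgb : ∀ m : ℤ, ‖g m‖ ≤ C / (1 + |(m:ℝ)|) := fun m => (n7 5 m 0 (by norm_num)).1
  have lim0 : Tendsto (fun x : ℝ => C / (1 + x)) atTop (𝓝 0) :=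
    tendsto_const_nhds.div_atTop (tendsto_atTop_add_const_left _ _ tendsto_id)
  have g1 : Tendsto g atTop (𝓝 0) := by
    apply squeeze_zero_norm hgb
    apply lim0.comp
    exact tendsto_abs_atTop_atTop.comp tendsto_intCast_atTop_atTop
  have g2 : Tendsto g atBot (𝓝 0) := by
    apply squeeze_zero_norm hgb
    apply lim0.comp
    exact tendsto_abs_atBot_atTop.comp ((tendsto_intCast_atBot_iff (R := ℝ)).2 tendsto_id)
  -- symmetries
  have sym0 : ∀ x : ℤ, hS y 1 (-x) 0 0 = g x := by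
    intro x
    have a := ((n4 (-1) x 0).1 0).1
    have b := ((n4 (-1) x 0).2.1 0).1
    have e1 : (-(-1) : ℤ) = 1 := by norm_num
    have e2 : (-1 + 6 : ℤ) = 5 := by norm_num
    rw [e1, neg_zero] at a
    rw [e2] at b
    rw [a, ← b]
  have sym2 : ∀ x : ℤ, hS y 5 x (-1) 2 = hS y 1 (-x) 1 2 := by
    intro x
    have b := ((n4 (-1) x (-1)).2.1 2).1
    have a' := ((n4 (-1) x 1).1 2).1
    have e1 : (-(-1) : ℤ) = 1 := by norm_num
    have e2 : (-1 + 6 : ℤ) = 5 := by norm_num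
    rw [e1] at a'
    rw [e2] at b
    rw [b, ← a']
  have z2 : ∀ r m : ℤ, hS y r m 0 2 = 0 := by
    intro r m
    have := (n4 r m 0).2.2.2.2.1
    simpa using this
  have hb := (hM3 y hy 1 5 5 1 1 (-1) 0 0 (by norm_num) (by norm_num) (by norm_num) (by norm_num)
    (by norm_num) (by norm_num)).2
  obtain ⟨-, hc1, hc2, -⟩ := hM4 y hy 1 5 5 1 1 (-1) 0 0 (by norm_num) (by norm_num) (by norm_num)
    (by norm_num) (by norm_num) (by norm_num) (by norm_num)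
  -- (b)
  have tb : ∑' m : ℤ × ℤ × ℤ, fL y (1, m.1, 1) (5, m.2.1, -1) 2 *
      (hL y (5, m.2.2, 0) 0 - hL y (1, -(m.1 + m.2.1 + m.2.2), 0) 0) = 0 := by
    rw [hb.tsum_prod]
    have : ∀ m1 : ℤ, ∑' b : ℤ × ℤ, fL y (1, m1, 1) (5, b.1, -1) 2 *
      (hL y (5, b.2, 0) 0 - hL y (1, -(m1 + b.1 + b.2), 0) 0) = 0 := by
      intro m1
      have hb1 := hb.prod_factor m1
      rw [hb1.tsum_prod]
      have : ∀ m2 : ℤ, ∑' m3 : ℤ, fL y (1, m1, 1) (5, m2, -1) 2 *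
        (hL y (5, m3, 0) 0 - hL y (1, -(m1 + m2 + m3), 0) 0) = 0 := by
        intro m2
        have hb2 := hb1.prod_factor m2
        have e : ∀ m3 : ℤ, hL y (5, m3, 0) 0 - hL y (1, -(m1 + m2 + m3), 0) 0 =
            g m3 - g (m3 + (m1 + m2)) := by
          intro m3
          have h1 : hL y (5, m3, 0) 0 = g m3 := rfl
          have h2 : hL y (1, -(m1 + m2 + m3), 0) 0 = g (m3 + (m1 + m2)) := by
            rw [add_comm m3, ← sym0]
            rfl
          rw [h1, h2]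
        simp only [e] at hb2 ⊢
        by_cases h0 : fL y (1, m1, 1) (5, m2, -1) 2 = 0
        · simp [h0]
        · rw [tsum_mul_left, tsum_tele g g1 g2 (m1 + m2) ((summable_mul_left_iff h0).1 hb2), mul_zero]
      simp only [this, tsum_zero]
    simp only [this, tsum_zero]
  -- (c)
  have tc : ∑' m : ℤ × ℤ × ℤ, fL y (5, m.2.2, 0) (1, -(m.1 + m.2.1 + m.2.2), 0) 0 *
      hL y (5, m.2.1, -1) 2 =
      ∑' m : ℤ × ℤ × ℤ, fL y (5, m.2.2, 0) (1, -(m.1 + m.2.1 + m.2.2), 0) 0 *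
      hL y (1, m.1, 1) 2 := by
    rw [← ev.tsum_eq (fun m : ℤ × ℤ × ℤ => fL y (5, m.2.2, 0) (1, -(m.1 + m.2.1 + m.2.2), 0) 0 *
      hL y (1, m.1, 1) 2)]
    apply tsum_congr
    intro m
    have h1 : hL y (5, m.2.1, -1) 2 = hL y (1, -m.2.1, 1) 2 := sym2 m.2.1
    have h2 : -m.2.1 + (m.1 + 2 * m.2.1) + m.2.2 = m.1 + m.2.1 + m.2.2 := by ring
    simp only [ev, Equiv.coe_fn_mk, h1, h2]
  have hfin := ((hb.hasSum).add (hc1.hasSum.sub hc2.hasSum)).mul_left (1 / 3)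
  rw [tb, tc, sub_self, add_zero, mul_zero] at hfin
  have hfun : (fun m : ℤ × ℤ × ℤ => VM y (lB1 m) (lB2 m) (lB3 m) (lB4 m)) = fun m : ℤ × ℤ × ℤ =>
      1 / 3 * (fL y (1, m.1, 1) (5, m.2.1, -1) 2 *
      (hL y (5, m.2.2, 0) 0 - hL y (1, -(m.1 + m.2.1 + m.2.2), 0) 0) +
      (fL y (5, m.2.2, 0) (1, -(m.1 + m.2.1 + m.2.2), 0) 0 * hL y (1, m.1, 1) 2 -
       fL y (5, m.2.2, 0) (1, -(m.1 + m.2.1 + m.2.2), 0) 0 * hL y (5, m.2.1, -1) 2)) := by
    funext m
    have a1 : hL y (5, m.2.2, 0) 2 = 0 := z2 _ _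
    have a2 : hL y (1, -(m.1 + m.2.1 + m.2.2), 0) 2 = 0 := z2 _ _
    have a3 : fL y (5, m.2.2, 0) (1, -(m.1 + m.2.1 + m.2.2), 0) 2 = 0 := fS_const y _ _ _ _
    simp only [VM, lB1, lB2, lB3, lB4, a1, a2, a3]
    ring
  rw [hfun]
  exact hfin

end Pool.Agent.Helper10.EC.D_MVB
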