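import Pool.Agent.Helper23.EC.EGoals

/-!
# MP_ecc237_nt, Part E, packet EC3 (Fubini for `Xs`)
-/

set_option autoImplicit false

open MeasureTheory Filter Topology Set

namespace Pool.Agent.Helper10.EC.E_EC3

open EC237

theorem thm (_hA1 : EC237.A1) (_hB1 : EC237.B1) (_hB2 : EC237.B2) (hEA1 : EC237.EA1) :
    EC237.EC3 := by
  intro z hz c c' a a' j s ha ha' hj hs hcl
  have hf := hEA1 z⁻¹ (inv_pos.mpr hz) c c' a a' j s ha ha' hj hs
  refine HasSum.prod_fiberwise (f := fun k : ℤ × ℤ => if InCl c k ∧ InCl c' (s - k) then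
    PowerSeries.coeff j (XX ((z⁻¹:ℝ):ℂ) (k, a) (s - k, a')) else 0) hf.hasSum ?_
  intro n1
  have h1 := (hf.prod_factor n1).hasSum
  have e : (fun m1 : ℤ => if InCl c (n1, m1) ∧ InCl c' (s - (n1, m1)) then
      PowerSeries.coeff j (XX ((z⁻¹:ℝ):ℂ) ((n1, m1), a) (s - (n1, m1), a')) else 0) =
      fun m1 : ℤ => if InCl c (n1, m1) then
      PowerSeries.coeff j (XX ((z⁻¹:ℝ):ℂ) ((n1, m1), a) ((s.1 - n1, s.2 - m1), a')) else 0 := by
    funext m1
    have hs2 : s - (n1, m1) = (s.1 - n1, s.2 - m1) := rfl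
    by_cases hc : InCl c (n1, m1)
    · have hc' : InCl c' (s - (n1, m1)) := by
        unfold InCl at hc hcl ⊢
        rw [hs2]
        dsimp only at hc ⊢
        omega
      rw [if_pos ⟨hc, hc'⟩, if_pos hc, hs2]
    · rw [if_neg (fun h => hc h.1), if_neg hc]
  have h2 : HasSum (fun m1 : ℤ => if InCl c (n1, m1) then
      PowerSeries.coeff j (XX ((z⁻¹:ℝ):ℂ) ((n1, m1), a) ((s.1 - n1, s.2 - m1), a')) else 0)
      (gX z c a a' j s.1 s.2 n1) := by
    unfold gX
    rw [← e]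
    exact h1
  rw [← e] at h2
  exact h2

end Pool.Agent.Helper10.EC.E_EC3
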