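import Pool.Agent.Helper10.EC.E_ED6

/-!
# MP_ecc237_nt, Part E, packet ED2 (sum of the main terms for `W`)
-/

set_option autoImplicit false

open MeasureTheory Filter Topology Set

namespace Pool.Agent.Helper10.EC.E_ED2

open EC237
open Pool.Agent.Helper10.EC.E_ED6 (term_bound summable_C0 wt_bound abs_int_ge)

/-- the summand of the `eT` series -/
noncomputable def tj (z κ m : ℝ) (j : ℕ) : ℝ :=
  (if j = 0 then (1 / 2 : ℝ) else 1) * (κ + 2 * (j:ℝ)) /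
    (m ^ 2 + (κ + 2 * (j:ℝ)) ^ 2 * z ^ 2) ^ 2

lemma summable_tj (z κ m : ℝ) (hz : 0 < z) (hκ : 0 ≤ κ) (hm : 1 ≤ |m|) :
    Summable (tj z κ m) := by
  set c : ℝ := min 1 (z ^ 2) with hc
  have hc0 : 0 < c := lt_min one_pos (by positivity)
  have hc1 : c ≤ 1 := min_le_left _ _
  have hc2 : c ≤ z ^ 2 := min_le_right _ _
  have hS : Summable (fun j : ℕ => (1 / c ^ 2) * (1 / ((j:ℝ) + 1) ^ 2)) :=
    summable_C0.mul_left (1 / c ^ 2)
  apply Summable.of_nonneg_of_le (f := fun j : ℕ => (1 / c ^ 2) * (1 / ((j:ℝ) + 1) ^ 2))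
    (g := tj z κ m) _ _ hS
  · intro j
    unfold tj
    obtain ⟨h0, h1⟩ := wt_bound j
    apply div_nonneg (mul_nonneg h0 (by positivity)) (by positivity)
  · intro j
    obtain ⟨h0, h1⟩ := wt_bound j
    have hA0 : 0 ≤ κ + 2 * (j:ℝ) := by positivity
    have hb := term_bound 1 (κ + 2 * (j:ℝ)) 1 (j:ℝ) (by simp) (Nat.cast_nonneg j)
      (by linarith) le_rfl
    rw [abs_one, one_mul] at hb
    have hm2 : 1 ≤ m ^ 2 := by
      rw [← sq_abs]
      nlinarith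
    set A := κ + 2 * (j:ℝ) with hA
    have hE : c * (1 ^ 2 + A ^ 2 * 1 ^ 2) ≤ m ^ 2 + A ^ 2 * z ^ 2 := by
      have : c * A ^ 2 ≤ z ^ 2 * A ^ 2 := mul_le_mul_of_nonneg_right hc2 (sq_nonneg A)
      nlinarith
    have hpos : 0 < c * (1 ^ 2 + A ^ 2 * 1 ^ 2) := by positivity
    calc tj z κ m j = (if j = 0 then (1 / 2 : ℝ) else 1) * (A / (m ^ 2 + A ^ 2 * z ^ 2) ^ 2) := by
          unfold tj
          rw [← hA, mul_div_assoc]
      _ ≤ 1 * (A / (m ^ 2 + A ^ 2 * z ^ 2) ^ 2) :=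
          mul_le_mul_of_nonneg_right h1 (div_nonneg hA0 (by positivity))
      _ = A / (m ^ 2 + A ^ 2 * z ^ 2) ^ 2 := one_mul _
      _ ≤ A / (c * (1 ^ 2 + A ^ 2 * 1 ^ 2)) ^ 2 := by
          apply div_le_div_of_nonneg_left hA0 (by positivity)
          apply pow_le_pow_left₀ hpos.le hE
      _ = (1 / c ^ 2) * (A / (1 ^ 2 + A ^ 2 * 1 ^ 2) ^ 2) := by
          field_simp
      _ ≤ (1 / c ^ 2) * (1 / ((j:ℝ) + 1) ^ 2) :=
          mul_le_mul_of_nonneg_left hb (by positivity)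

/-- the sign part of the sum over `n1` -/
noncomputable def hk (z : ℝ) (k m : ℤ) (n : ℤ) : ℝ :=
  (2 * (n:ℝ) + k) * (((n.sign : ℤ) : ℝ) + (((n + k).sign : ℤ) : ℝ)) /
    ((m:ℝ) ^ 2 + (2 * (n:ℝ) + k) ^ 2 * z ^ 2) ^ 2

/-- the positive half -/
noncomputable def pk (z : ℝ) (K : ℕ) (m : ℤ) (n : ℤ) : ℝ :=
  if 0 ≤ n then 2 * tj z K m n.toNat else 0

lemma pk_of_neg (z : ℝ) (K : ℕ) (m n : ℤ) (h : n < 0) : pk z K m n = 0 := by
  unfold pk
  rw [if_neg (by omega)]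

lemma pk_of_pos (z : ℝ) (K : ℕ) (m n : ℤ) (h : 0 < n) :
    pk z K m n = 2 * (2 * (n:ℝ) + K) / ((m:ℝ) ^ 2 + (2 * (n:ℝ) + K) ^ 2 * z ^ 2) ^ 2 := by
  unfold pk tj
  have h1 : n.toNat ≠ 0 := by omega
  have h2 : ((n.toNat : ℕ) : ℝ) = (n:ℝ) := by
    have : ((n.toNat : ℤ)) = n := Int.toNat_of_nonneg h.le
    exact_mod_cast this
  rw [if_pos h.le, if_neg h1, h2]
  rw [add_comm (K:ℝ) (2 * (n:ℝ)), one_mul, mul_div_assoc]

lemma pk_zero (z : ℝ) (K : ℕ) (m : ℤ) :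
    pk z K m 0 = (K:ℝ) / ((m:ℝ) ^ 2 + (K:ℝ) ^ 2 * z ^ 2) ^ 2 := by
  unfold pk tj
  simp only [le_refl, if_true, Int.toNat_zero, Nat.cast_zero, mul_zero, add_zero]
  ring

lemma hk_eq (z : ℝ) (K : ℕ) (m n : ℤ) :
    hk z (K:ℤ) m n = pk z K m n + pk z K m (-(K:ℤ) - n) := by
  have hKz : (((K:ℤ)) : ℝ) = (K:ℝ) := by push_cast; rfl
  rcases lt_trichotomy n 0 with hn | hn | hn
  · rw [pk_of_neg z K m n hn]
    rcases lt_trichotomy (-(K:ℤ) - n) 0 with h2 | h2 | h2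
    · rw [pk_of_neg z K m _ h2]
      unfold hk
      rw [Int.sign_eq_neg_one_of_neg hn, Int.sign_eq_one_of_pos (by omega)]
      push_cast
      ring
    · rw [h2, pk_zero]
      have hn2 : n = -(K:ℤ) := by omega
      unfold hk
      rw [Int.sign_eq_neg_one_of_neg hn, hn2]
      simp only [neg_add_cancel, Int.sign_zero]
      push_cast
      ring
    · rw [pk_of_pos z K m _ h2]
      unfold hk
      rw [Int.sign_eq_neg_one_of_neg hn, Int.sign_eq_neg_one_of_neg (show n + (K:ℤ) < 0 by omega)]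
      push_cast
      ring
  · subst hn
    rw [pk_zero]
    rcases Nat.eq_zero_or_pos K with hK | hK
    · subst hK
      unfold hk
      simp
      unfold pk tj
      simp
    · rw [pk_of_neg z K m _ (by omega)]
      unfold hk
      rw [Int.sign_zero, zero_add, Int.sign_eq_one_of_pos (by omega)]
      push_cast
      ring
  · rw [pk_of_pos z K m n hn, pk_of_neg z K m _ (by omega)]
    unfold hk
    rw [Int.sign_eq_one_of_pos hn, Int.sign_eq_one_of_pos (by omega)]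
    push_cast
    ring

lemma hasSum_hk_nat (z : ℝ) (hz : 0 < z) (K : ℕ) (m : ℤ) (hm : m ≠ 0) :
    HasSum (hk z (K:ℤ) m) (4 * ∑' j : ℕ, tj z K m j) := by
  have hs := (summable_tj z K m hz (Nat.cast_nonneg K) (abs_int_ge m hm)).hasSum.mul_left 2
  have h1 : HasSum (pk z K m) (2 * ∑' j : ℕ, tj z K m j) := by
    have hinj : Function.Injective (fun j : ℕ => (j:ℤ)) := fun a b h => by
      dsimp only at h
      omega
    have hx : ∀ x : ℤ, x ∉ Set.range (fun j : ℕ => (j:ℤ)) → pk z K m x = 0 := by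
      intro x hx
      apply pk_of_neg
      by_contra h
      apply hx
      exact ⟨x.toNat, Int.toNat_of_nonneg (by omega)⟩
    have e : (pk z K m ∘ fun j : ℕ => (j:ℤ)) = fun j : ℕ => 2 * tj z K m j := by
      funext j
      simp [pk]
    have h := hinj.hasSum_iff (f := pk z K m) (a := 2 * ∑' j : ℕ, tj z K m j) hx
    rw [e] at h
    exact h.mp hs
  have h2' : HasSum (pk z K m ∘ (Equiv.subLeft (-(K:ℤ)))) (2 * ∑' j : ℕ, tj z K m j) := by
    rw [Equiv.hasSum_iff]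
    exact h1
  have h2 : HasSum (fun n : ℤ => pk z K m (-(K:ℤ) - n)) (2 * ∑' j : ℕ, tj z K m j) := by
    have e : (pk z K m ∘ (Equiv.subLeft (-(K:ℤ)))) = fun n : ℤ => pk z K m (-(K:ℤ) - n) := by
      funext n
      simp
    rw [e] at h2'
    exact h2'
  have h3 := h1.add h2
  have e : (fun n : ℤ => pk z K m n + pk z K m (-(K:ℤ) - n)) = hk z (K:ℤ) m := by
    funext n
    exact (hk_eq z K m n).symm
  rw [e] at h3
  convert h3 using 1
  ring

lemma hasSum_hk (z : ℝ) (hz : 0 < z) (k m : ℤ) (hm : m ≠ 0) :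
    HasSum (hk z k m) (4 * ∑' j : ℕ, tj z |(k:ℝ)| m j) := by
  obtain ⟨K, hK | hK⟩ := k.eq_nat_or_neg
  · have hab : |(k:ℝ)| = (K:ℝ) := by
      rw [hK]
      push_cast
      exact abs_of_nonneg (Nat.cast_nonneg K)
    rw [hab, hK]
    exact hasSum_hk_nat z hz K m hm
  · have hab : |(k:ℝ)| = (K:ℝ) := by
      rw [hK]
      push_cast
      rw [abs_neg]
      exact abs_of_nonneg (Nat.cast_nonneg K)
    rw [hab, hK]
    have h : HasSum (hk z (K:ℤ) m ∘ (Equiv.subRight (K:ℤ))) (4 * ∑' j : ℕ, tj z K m j) := by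
      rw [Equiv.hasSum_iff]
      exact hasSum_hk_nat z hz K m hm
    have e0 : hk z (-(K:ℤ)) m = (hk z (K:ℤ) m ∘ (Equiv.subRight (K:ℤ))) := by
      funext n
      rw [Function.comp_apply, Equiv.subRight_apply]
      unfold hk
      have e1 : (2 * (n:ℝ) + ((-(K:ℤ) : ℤ) : ℝ)) = 2 * (((n - (K:ℤ) : ℤ)) : ℝ) + (((K:ℤ)) : ℝ) := by
        push_cast
        ring
      have e2 : n + -(K:ℤ) = n - (K:ℤ) := by ring
      have e3 : n - (K:ℤ) + (K:ℤ) = n := by ring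
      rw [e1, e2, e3, add_comm (((n.sign : ℤ)) : ℝ)]
    rw [e0]
    exact h

/-- real form of `FX` at `a = 1`, `a' = -1`, `j = 1` -/
lemma FX_im (z u v w t p q : ℝ) (M : ℂ) (hM : M⁻¹ = (p:ℂ) + (q:ℂ) * Complex.I) :
    (FX z 1 (-1) 1 M ((w:ℂ) + (t:ℂ) * Complex.I) (u:ℂ) 0 (v:ℂ) 0).im =
      -(z ^ 3 * ((u + v) * p + 2 * (w * (p ^ 2 - q ^ 2) - 2 * t * p * q))) := by
  have hz3 : (z:ℂ) ^ 3 = ((z ^ 3 : ℝ) : ℂ) := by push_cast; rfl
  unfold FX
  rw [if_neg one_ne_zero, if_pos rfl]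
  simp only [div_eq_mul_inv, ← inv_pow]
  rw [hM, hz3, Complex.im_ofReal_mul]
  simp only [pow_two, Complex.add_im, Complex.neg_im, Complex.mul_im, Complex.mul_re,
    Complex.add_re, Complex.neg_re, Complex.I_re, Complex.I_im, Complex.ofReal_re,
    Complex.ofReal_im, Complex.one_re, Complex.one_im]
  ring

lemma MM_inv (z : ℝ) (k m n : ℤ) (hz : 0 < z) (hm : m ≠ 0) :
    (MM z (-k) (-m) n)⁻¹ =
      ((-((m:ℝ) / ((m:ℝ) ^ 2 + (2 * (n:ℝ) + k) ^ 2 * z ^ 2)) : ℝ) : ℂ) +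
      (((2 * (n:ℝ) + k) * z / ((m:ℝ) ^ 2 + (2 * (n:ℝ) + k) ^ 2 * z ^ 2) : ℝ) : ℂ) *
        Complex.I := by
  have hm' : (m:ℝ) ≠ 0 := by exact_mod_cast hm
  have hD : (m:ℝ) ^ 2 + (2 * (n:ℝ) + k) ^ 2 * z ^ 2 ≠ 0 := by positivity
  apply inv_eq_of_mul_eq_one_right
  have hMM : MM z (-k) (-m) n = ((-(m:ℝ) : ℝ) : ℂ) + ((-((2 * (n:ℝ) + k) * z) : ℝ) : ℂ) *
      Complex.I := by
    unfold MM
    push_cast
    ring
  rw [hMM]
  apply Complex.ext
  · simp only [Complex.add_im, Complex.mul_im, Complex.mul_re,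
      Complex.add_re, Complex.I_re, Complex.I_im, Complex.ofReal_re,
      Complex.ofReal_im, Complex.one_re]
    field_simp
    ring
  · simp only [Complex.add_im, Complex.mul_im, Complex.mul_re,
      Complex.add_re, Complex.I_re, Complex.I_im, Complex.ofReal_re,
      Complex.ofReal_im, Complex.one_im]
    field_simp
    ring

lemma sU_one (n : ℤ) : sU 1 n = (((if n = 0 then ew1 else 0 : ℝ)) : ℂ) +
    ((Real.pi / 6 * ((n.sign : ℤ) : ℝ) : ℝ) : ℂ) * Complex.I := by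
  unfold sU
  by_cases h : n = 0
  · subst h
    rw [if_neg (by simp), if_pos rfl]
    have e1 : Real.pi * ((1:ℤ):ℝ) / 6 = Real.pi / 6 := by push_cast; ring
    rw [e1, Real.cos_pi_div_six, Real.sin_pi_div_six]
    have e2 : Real.pi / 6 * (Real.sqrt 3 / 2 / (1 / 2)) = ew1 := by
      unfold ew1
      ring
    rw [e2]
    simp
  · rw [if_pos h, if_neg h]
    push_cast
    ring

lemma sV_three (n : ℤ) : sV 3 n = ((-(Real.pi / 6 * ((n.sign : ℤ) : ℝ)) : ℝ) : ℂ) * Complex.I := by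
  unfold sV
  by_cases h : n = 0
  · subst h
    rw [if_neg (by simp)]
    have e1 : Real.pi * ((3:ℤ):ℝ) / 6 = Real.pi / 2 := by push_cast; ring
    rw [e1, Real.cos_pi_div_two]
    simp
  · rw [if_pos h]
    push_cast
    ring

/-- the real summand -/
noncomputable def rr (z : ℝ) (k m n : ℤ) : ℝ :=
  (if n = 0 then 2 * Real.pi ^ 2 / 9 * z * ((m:ℝ) / eD z (k, m)) -
    4 * ew1 * z * (((m:ℝ) ^ 2 - (k:ℝ) ^ 2 * z ^ 2) / eD z (k, m) ^ 2) else 0) +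
  (if n = -k then 2 * Real.pi ^ 2 / 36 * z * ((m:ℝ) / eD z (k, m)) else 0) +
  (-(4 * Real.pi / 3 * z ^ 2 * m)) * hk z k m n

lemma gW0_eq (z : ℝ) (k m n : ℤ) (hz : 0 < z) (hm : m ≠ 0) :
    gW0 z (-k) (-m) n = Complex.I * (z:ℂ) ^ 2 * ((rr z k m n : ℝ) : ℂ) := by
  have hm' : (m:ℝ) ≠ 0 := by exact_mod_cast hm
  have hD : (m:ℝ) ^ 2 + (2 * (n:ℝ) + k) ^ 2 * z ^ 2 ≠ 0 := by positivity
  have hD' : (m:ℝ) ^ 2 + (k:ℝ) ^ 2 * z ^ 2 ≠ 0 := by positivity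
  unfold gW0
  have hS : sU 1 n + sV 3 (-k - n) = (((if n = 0 then ew1 else 0 : ℝ)) : ℂ) +
      ((Real.pi / 6 * (((n.sign : ℤ) : ℝ) + (((n + k).sign : ℤ) : ℝ)) : ℝ) : ℂ) * Complex.I := by
    rw [sU_one, sV_three]
    have e : (-k - n).sign = -((n + k).sign) := by
      rw [show -k - n = -(n + k) by ring, Int.sign_neg]
    rw [e]
    push_cast
    ring
  have hU : (if n = 0 then ((Real.pi ^ 2 / 9 : ℝ) : ℂ) else 0) =
      ((if n = 0 then Real.pi ^ 2 / 9 else 0 : ℝ) : ℂ) := by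
    split_ifs <;> simp
  have hV : (if -k - n = 0 then ((Real.pi ^ 2 / 36 : ℝ) : ℂ) else 0) =
      ((if n = -k then Real.pi ^ 2 / 36 else 0 : ℝ) : ℂ) := by
    by_cases h : n = -k
    · rw [if_pos (by omega), if_pos h]
    · rw [if_neg (by omega), if_neg h]
      simp
  rw [hS, hU, hV, FX_im _ _ _ _ _ _ _ _ (MM_inv z k m n hz hm)]
  have key : 2 * -(z ^ 3 * (((if n = 0 then Real.pi ^ 2 / 9 else 0) +
      (if n = -k then Real.pi ^ 2 / 36 else 0)) *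
      (-((m:ℝ) / ((m:ℝ) ^ 2 + (2 * (n:ℝ) + k) ^ 2 * z ^ 2))) +
      2 * ((if n = 0 then ew1 else 0) * ((-((m:ℝ) / ((m:ℝ) ^ 2 + (2 * (n:ℝ) + k) ^ 2 * z ^ 2))) ^ 2 -
      ((2 * (n:ℝ) + k) * z / ((m:ℝ) ^ 2 + (2 * (n:ℝ) + k) ^ 2 * z ^ 2)) ^ 2) -
      2 * (Real.pi / 6 * (((n.sign : ℤ) : ℝ) + (((n + k).sign : ℤ) : ℝ))) *
      (-((m:ℝ) / ((m:ℝ) ^ 2 + (2 * (n:ℝ) + k) ^ 2 * z ^ 2))) *
      ((2 * (n:ℝ) + k) * z / ((m:ℝ) ^ 2 + (2 * (n:ℝ) + k) ^ 2 * z ^ 2))))) =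
      z ^ 2 * rr z k m n := by
    unfold rr hk eD
    dsimp only
    have b2 : n = -k → (2 * (n:ℝ) + k) ^ 2 = (k:ℝ) ^ 2 := by
      intro h
      rw [h]
      push_cast
      ring
    generalize (((n.sign : ℤ) : ℝ) + (((n + k).sign : ℤ) : ℝ)) = sg
    by_cases h1 : n = 0
    · subst h1
      by_cases h2 : (0:ℤ) = -k
      · have hk0 : k = 0 := by omega
        subst hk0
        simp only [if_true, neg_zero, Int.cast_zero, mul_zero, zero_pow two_ne_zero,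
          zero_mul, add_zero, zero_div, sub_zero]
        field_simp
        ring
      · rw [if_pos rfl, if_pos rfl, if_pos rfl, if_neg h2, if_neg h2]
        simp only [Int.cast_zero, mul_zero, zero_add, add_zero]
        field_simp
        ring
    · by_cases h2 : n = -k
      · rw [if_neg h1, if_neg h1, if_neg h1, if_pos h2, if_pos h2, ← b2 h2]
        field_simp
        ring
      · rw [if_neg h1, if_neg h1, if_neg h1, if_neg h2, if_neg h2]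
        field_simp
        ring
  rw [key]
  push_cast
  ring

theorem thm : EC237.ED2 := by
  intro z hz k m hm
  have hS := (hasSum_hk z hz k m hm).mul_left (-(4 * Real.pi / 3 * z ^ 2 * m))
  have h1 : HasSum (fun n : ℤ => (if n = 0 then 2 * Real.pi ^ 2 / 9 * z * ((m:ℝ) / eD z (k, m)) -
    4 * ew1 * z * (((m:ℝ) ^ 2 - (k:ℝ) ^ 2 * z ^ 2) / eD z (k, m) ^ 2) else 0))
      (2 * Real.pi ^ 2 / 9 * z * ((m:ℝ) / eD z (k, m)) -
    4 * ew1 * z * (((m:ℝ) ^ 2 - (k:ℝ) ^ 2 * z ^ 2) / eD z (k, m) ^ 2)) := hasSum_ite_eq 0 _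
  have h2 : HasSum (fun n : ℤ => (if n = -k then 2 * Real.pi ^ 2 / 36 * z *
      ((m:ℝ) / eD z (k, m)) else 0)) (2 * Real.pi ^ 2 / 36 * z * ((m:ℝ) / eD z (k, m))) :=
    hasSum_ite_eq (-k) _
  have h3 := (h1.add h2).add hS
  have h4 : HasSum (rr z k m) (eY z (k, m) + eV z (k, m)) := by
    have e : (2 * Real.pi ^ 2 / 9 * z * ((m:ℝ) / eD z (k, m)) -
        4 * ew1 * z * (((m:ℝ) ^ 2 - (k:ℝ) ^ 2 * z ^ 2) / eD z (k, m) ^ 2)) +
        2 * Real.pi ^ 2 / 36 * z * ((m:ℝ) / eD z (k, m)) +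
        (-(4 * Real.pi / 3 * z ^ 2 * m)) * (4 * ∑' j : ℕ, tj z |(k:ℝ)| m j) =
        eY z (k, m) + eV z (k, m) := by
      have eTe : eT z (k, m) = (m:ℝ) * z ^ 2 * ∑' j : ℕ, tj z |(k:ℝ)| m j := rfl
      unfold eY eV
      rw [eTe]
      dsimp only
      ring
    rw [← e]
    exact h3
  have h5 : HasSum (fun n : ℤ => ((rr z k m n : ℝ) : ℂ)) ((eY z (k, m) + eV z (k, m) : ℝ) : ℂ) :=
    Complex.hasSum_ofReal.mpr h4
  have h6 := h5.mul_left (Complex.I * (z:ℂ) ^ 2)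
  have e : gW0 z (-k) (-m) = fun n : ℤ => Complex.I * (z:ℂ) ^ 2 * ((rr z k m n : ℝ) : ℂ) := by
    funext n
    exact gW0_eq z k m n hz hm
  rw [e]
  exact h6

end Pool.Agent.Helper10.EC.E_ED2
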