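import Pool.Agent.Helper23.EC.EGoals

/-!
# MP_ecc237_nt, Part E, packet ED6 (bounds of the main terms)
-/

set_option autoImplicit false

open MeasureTheory Filter Topology Set

namespace Pool.Agent.Helper10.EC.E_ED6

open EC237

lemma term_bound (m A z j : ℝ) (hm : 1 ≤ |m|) (hj : 0 ≤ j) (hA : 2 * j ≤ A) (hz : 1 ≤ z) :
    |m| * (A / (m ^ 2 + A ^ 2 * z ^ 2) ^ 2) ≤ 1 / (j + 1) ^ 2 := by
  have hA0 : 0 ≤ A := le_trans (by positivity) hA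
  set μ := |m| with hμ
  have hm2 : m ^ 2 = μ ^ 2 := (sq_abs m).symm
  rw [hm2]
  have hμ0 : 0 < μ := lt_of_lt_of_le one_pos hm
  have hz2 : 1 ≤ z ^ 2 := by nlinarith
  have hE1 : μ ^ 2 + A ^ 2 ≤ μ ^ 2 + A ^ 2 * z ^ 2 := by nlinarith [sq_nonneg A]
  have hE2 : 2 * (μ * A) ≤ μ ^ 2 + A ^ 2 := by nlinarith [sq_nonneg (μ - A)]
  have hE3 : (j + 1) ^ 2 ≤ 2 * (μ ^ 2 + A ^ 2) := by
    have h1 : 1 ≤ μ ^ 2 := by nlinarith
    have h2 : (2 * j) ^ 2 ≤ A ^ 2 := by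
      apply pow_le_pow_left₀ (by positivity) hA
    nlinarith [sq_nonneg (j - 1)]
  have hEpos : 0 < μ ^ 2 + A ^ 2 := by positivity
  have hμA : 0 ≤ μ * A := by positivity
  rw [← mul_div_assoc, div_le_div_iff₀ (by positivity) (by positivity), one_mul]
  calc μ * A * (j + 1) ^ 2 ≤ μ * A * (2 * (μ ^ 2 + A ^ 2)) := by
        apply mul_le_mul_of_nonneg_left hE3 hμA
    _ = (2 * (μ * A)) * (μ ^ 2 + A ^ 2) := by ring
    _ ≤ (μ ^ 2 + A ^ 2) * (μ ^ 2 + A ^ 2) := by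
        apply mul_le_mul_of_nonneg_right hE2 hEpos.le
    _ ≤ (μ ^ 2 + A ^ 2 * z ^ 2) ^ 2 := by
        rw [← sq]
        apply pow_le_pow_left₀ hEpos.le hE1

/-- the total majorant -/
noncomputable def C0 : ℝ := ∑' j : ℕ, 1 / ((j:ℝ) + 1) ^ 2

lemma summable_C0 : Summable (fun j : ℕ => 1 / ((j:ℝ) + 1) ^ 2) := by
  have h := (summable_nat_add_iff (f := fun n : ℕ => 1 / ((n:ℝ)) ^ 2) 1).mpr
    (Real.summable_one_div_nat_pow.mpr one_lt_two)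
  refine h.congr (fun j => ?_)
  push_cast
  rfl

lemma C0_nonneg : 0 ≤ C0 := tsum_nonneg (fun j => by positivity)

lemma wt_bound (j : ℕ) : 0 ≤ (if j = 0 then (1 / 2 : ℝ) else 1) ∧
    (if j = 0 then (1 / 2 : ℝ) else 1) ≤ 1 := by
  split_ifs <;> norm_num

lemma abs_int_ge (n : ℤ) (hn : n ≠ 0) : (1:ℝ) ≤ |(n:ℝ)| := by
  have h := Int.one_le_abs hn
  have : ((1:ℤ):ℝ) ≤ ((|n| : ℤ) : ℝ) := by exact_mod_cast h
  simpa using this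

lemma term_full (z : ℝ) (hz : 1 ≤ z) (s : ℤ × ℤ) (hs : s.2 ≠ 0) (j : ℕ) :
    0 ≤ (if j = 0 then (1 / 2 : ℝ) else 1) *
      (|(s.1:ℝ)| + 2 * (j:ℝ)) / ((s.2:ℝ) ^ 2 + (|(s.1:ℝ)| + 2 * (j:ℝ)) ^ 2 * z ^ 2) ^ 2 ∧
    |(s.2:ℝ)| * ((if j = 0 then (1 / 2 : ℝ) else 1) *
      (|(s.1:ℝ)| + 2 * (j:ℝ)) / ((s.2:ℝ) ^ 2 + (|(s.1:ℝ)| + 2 * (j:ℝ)) ^ 2 * z ^ 2) ^ 2) ≤
      1 / ((j:ℝ) + 1) ^ 2 := by
  obtain ⟨hw0, hw1⟩ := wt_bound j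
  have hA0 : 0 ≤ |(s.1:ℝ)| + 2 * (j:ℝ) := by positivity
  refine ⟨?_, ?_⟩
  · apply div_nonneg (mul_nonneg hw0 hA0) (by positivity)
  · have hb := term_bound (s.2:ℝ) (|(s.1:ℝ)| + 2 * (j:ℝ)) z (j:ℝ) (abs_int_ge _ hs)
      (Nat.cast_nonneg j) (by have := abs_nonneg (s.1:ℝ); linarith) hz
    refine le_trans ?_ hb
    apply mul_le_mul_of_nonneg_left _ (abs_nonneg _)
    rw [mul_div_assoc]
    have hq : 0 ≤ (|(s.1:ℝ)| + 2 * (j:ℝ)) /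
        ((s.2:ℝ) ^ 2 + (|(s.1:ℝ)| + 2 * (j:ℝ)) ^ 2 * z ^ 2) ^ 2 :=
      div_nonneg hA0 (by positivity)
    calc _ ≤ 1 * ((|(s.1:ℝ)| + 2 * (j:ℝ)) /
        ((s.2:ℝ) ^ 2 + (|(s.1:ℝ)| + 2 * (j:ℝ)) ^ 2 * z ^ 2) ^ 2) :=
          mul_le_mul_of_nonneg_right hw1 hq
      _ = _ := one_mul _

lemma summ_full (z : ℝ) (hz : 1 ≤ z) (s : ℤ × ℤ) (hs : s.2 ≠ 0) :
    Summable (fun j : ℕ => (if j = 0 then (1 / 2 : ℝ) else 1) *
      (|(s.1:ℝ)| + 2 * (j:ℝ)) / ((s.2:ℝ) ^ 2 + (|(s.1:ℝ)| + 2 * (j:ℝ)) ^ 2 * z ^ 2) ^ 2) := by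
  refine Summable.of_nonneg_of_le (fun j => (term_full z hz s hs j).1) (fun j => ?_) summable_C0
  obtain ⟨h0, h1⟩ := term_full z hz s hs j
  have hm := abs_int_ge _ hs
  refine le_trans ?_ h1
  exact le_mul_of_one_le_left h0 hm

lemma eT_bound (z : ℝ) (hz : 1 ≤ z) (s : ℤ × ℤ) (hs : s.2 ≠ 0) : |eT z s| ≤ C0 * z ^ 2 := by
  unfold eT
  have hsum := summ_full z hz s hs
  have hnn : 0 ≤ ∑' j : ℕ, (if j = 0 then (1 / 2 : ℝ) else 1) *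
      (|(s.1:ℝ)| + 2 * (j:ℝ)) / ((s.2:ℝ) ^ 2 + (|(s.1:ℝ)| + 2 * (j:ℝ)) ^ 2 * z ^ 2) ^ 2 :=
    tsum_nonneg (fun j => (term_full z hz s hs j).1)
  rw [abs_mul, abs_mul, abs_of_nonneg hnn, abs_of_nonneg (sq_nonneg z)]
  have h1 : |(s.2:ℝ)| * ∑' j : ℕ, (if j = 0 then (1 / 2 : ℝ) else 1) *
      (|(s.1:ℝ)| + 2 * (j:ℝ)) / ((s.2:ℝ) ^ 2 + (|(s.1:ℝ)| + 2 * (j:ℝ)) ^ 2 * z ^ 2) ^ 2 ≤ C0 := by
    rw [← tsum_mul_left]
    exact (hsum.mul_left _).tsum_le_tsum (fun j => (term_full z hz s hs j).2) summable_C0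
  calc _ = (|(s.2:ℝ)| * ∑' j : ℕ, (if j = 0 then (1 / 2 : ℝ) else 1) *
      (|(s.1:ℝ)| + 2 * (j:ℝ)) / ((s.2:ℝ) ^ 2 + (|(s.1:ℝ)| + 2 * (j:ℝ)) ^ 2 * z ^ 2) ^ 2) * z ^ 2 := by
        ring
    _ ≤ C0 * z ^ 2 := mul_le_mul_of_nonneg_right h1 (sq_nonneg z)

lemma mu_bound (z : ℝ) (hz : 1 ≤ z) (s : ℤ × ℤ) (hs : s.2 ≠ 0) :
    |z * ((s.2:ℝ) / eD z s)| ≤ z ^ 2 ∧
    |z * (((s.2:ℝ) ^ 2 - (s.1:ℝ) ^ 2 * z ^ 2) / eD z s ^ 2)| ≤ z ^ 2 := by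
  have hm := abs_int_ge _ hs
  have hz0 : 0 < z := by linarith
  have hzz : z ≤ z ^ 2 := by nlinarith
  have hm2 : (s.2:ℝ) ^ 2 = |(s.2:ℝ)| ^ 2 := (sq_abs _).symm
  have hD1 : |(s.2:ℝ)| ^ 2 ≤ eD z s := by
    unfold eD
    rw [hm2]
    have : 0 ≤ (s.1:ℝ) ^ 2 * z ^ 2 := by positivity
    linarith
  have hD2 : |(s.2:ℝ)| ≤ eD z s := by nlinarith
  have hD3 : 1 ≤ eD z s := by linarith
  have hDpos : 0 < eD z s := by linarith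
  constructor
  · rw [abs_mul, abs_div, abs_of_pos hz0, abs_of_pos hDpos]
    have : |(s.2:ℝ)| / eD z s ≤ 1 := by
      rw [div_le_one hDpos]
      exact hD2
    calc z * (|(s.2:ℝ)| / eD z s) ≤ z * 1 := mul_le_mul_of_nonneg_left this hz0.le
      _ ≤ z ^ 2 := by linarith
  · rw [abs_mul, abs_div, abs_of_pos hz0, abs_of_pos (pow_pos hDpos 2)]
    have h3 : |(s.2:ℝ) ^ 2 - (s.1:ℝ) ^ 2 * z ^ 2| ≤ eD z s := by
      unfold eD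
      rw [abs_le]
      have h1 : 0 ≤ (s.1:ℝ) ^ 2 * z ^ 2 := by positivity
      have h2 : 0 ≤ (s.2:ℝ) ^ 2 := by positivity
      constructor <;> linarith
    have : |(s.2:ℝ) ^ 2 - (s.1:ℝ) ^ 2 * z ^ 2| / eD z s ^ 2 ≤ 1 := by
      rw [div_le_one (pow_pos hDpos 2)]
      nlinarith
    calc z * (|(s.2:ℝ) ^ 2 - (s.1:ℝ) ^ 2 * z ^ 2| / eD z s ^ 2) ≤ z * 1 :=
          mul_le_mul_of_nonneg_left this hz0.le
      _ ≤ z ^ 2 := by linarith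

lemma k_bound (z : ℝ) (hz : 1 ≤ z) (s : ℤ × ℤ) (hs : s.1 ≠ 0) :
    |z * ((s.1:ℝ) / eD z s)| ≤ z ^ 3 / |(s.1:ℝ)| ∧
    |z ^ 3 * ((s.1:ℝ) / eD z s)| ≤ z ^ 3 / |(s.1:ℝ)| ∧
    |z * ((s.1:ℝ) * z ^ 2 * (2 * (s.1:ℝ) ^ 2 * z ^ 2 - 6 * (s.2:ℝ) ^ 2) / eD z s ^ 3)| ≤
      6 * (z ^ 3 / |(s.1:ℝ)|) := by
  have hk := abs_int_ge _ hs
  have hz0 : 0 < z := by linarith
  have hz2 : 1 ≤ z ^ 2 := by nlinarith
  have hk2 : (s.1:ℝ) ^ 2 = |(s.1:ℝ)| ^ 2 := (sq_abs _).symm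
  set κ := |(s.1:ℝ)| with hκ
  have hκ0 : 0 < κ := by linarith
  have hD1 : κ ^ 2 ≤ eD z s := by
    unfold eD
    rw [hk2]
    have h2 : 0 ≤ (s.2:ℝ) ^ 2 := by positivity
    nlinarith [sq_nonneg κ]
  have hD3 : 1 ≤ eD z s := by nlinarith
  have hDpos : 0 < eD z s := by linarith
  have h1 : κ / eD z s ≤ 1 / κ := by
    rw [div_le_div_iff₀ hDpos hκ0]
    nlinarith
  have h2 : κ / eD z s ^ 2 ≤ 1 / κ := by
    rw [div_le_div_iff₀ (pow_pos hDpos 2) hκ0]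
    nlinarith
  have hz3 : z ≤ z ^ 3 := by nlinarith
  have hz30 : 0 < z ^ 3 := by positivity
  refine ⟨?_, ?_, ?_⟩
  · rw [abs_mul, abs_div, abs_of_pos hz0, abs_of_pos hDpos]
    calc z * (κ / eD z s) ≤ z ^ 3 * (1 / κ) :=
          mul_le_mul hz3 h1 (by positivity) (by positivity)
      _ = z ^ 3 / κ := by ring
  · rw [abs_mul, abs_div, abs_of_pos hz30, abs_of_pos hDpos]
    calc z ^ 3 * (κ / eD z s) ≤ z ^ 3 * (1 / κ) :=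
          mul_le_mul_of_nonneg_left h1 (by positivity)
      _ = z ^ 3 / κ := by ring
  · have h3 : |2 * (s.1:ℝ) ^ 2 * z ^ 2 - 6 * (s.2:ℝ) ^ 2| ≤ 6 * eD z s := by
      unfold eD
      rw [abs_le]
      have h1 : 0 ≤ (s.1:ℝ) ^ 2 * z ^ 2 := by positivity
      have h2 : 0 ≤ (s.2:ℝ) ^ 2 := by positivity
      constructor <;> nlinarith
    have e : |z * ((s.1:ℝ) * z ^ 2 * (2 * (s.1:ℝ) ^ 2 * z ^ 2 - 6 * (s.2:ℝ) ^ 2) / eD z s ^ 3)| =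
        z ^ 3 * (κ * |2 * (s.1:ℝ) ^ 2 * z ^ 2 - 6 * (s.2:ℝ) ^ 2| / eD z s ^ 3) := by
      rw [abs_mul, abs_div, abs_mul, abs_mul, abs_of_pos hz0, abs_of_pos (pow_pos hDpos 3),
        abs_of_pos (pow_pos hz0 2)]
      ring
    rw [e]
    have h4 : κ * |2 * (s.1:ℝ) ^ 2 * z ^ 2 - 6 * (s.2:ℝ) ^ 2| / eD z s ^ 3 ≤
        6 * (κ / eD z s ^ 2) := by
      rw [div_le_iff₀ (pow_pos hDpos 3)]
      have : 6 * (κ / eD z s ^ 2) * eD z s ^ 3 = κ * (6 * eD z s) := by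
        field_simp
      rw [this]
      exact mul_le_mul_of_nonneg_left h3 hκ0.le
    calc z ^ 3 * (κ * |2 * (s.1:ℝ) ^ 2 * z ^ 2 - 6 * (s.2:ℝ) ^ 2| / eD z s ^ 3)
        ≤ z ^ 3 * (6 * (1 / κ)) := by
          apply mul_le_mul_of_nonneg_left _ hz30.le
          linarith
      _ = 6 * (z ^ 3 / κ) := by ring

theorem thm : EC237.ED6 := by
  have hw1 : 0 ≤ ew1 := by unfold ew1; positivity
  have hZ : 0 ≤ eZ13 := by unfold eZ13; positivity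
  have hC0 := C0_nonneg
  have hpi := Real.pi_pos
  refine ⟨8 * Real.pi * C0 + 60 * ew1 + Real.pi ^ 2 + 4 * eZ13 + 1, by positivity, ?_⟩
  intro z hz s
  have hz0 : 0 < z := by linarith
  refine ⟨fun hs => ?_, fun hs => ?_⟩
  · have hT := eT_bound z hz s hs
    obtain ⟨h1, h2⟩ := mu_bound z hz s hs
    have hz2 : 0 ≤ z ^ 2 := by positivity
    refine ⟨?_, ?_, summ_full z hz s hs⟩
    · unfold eY
      have e : 8 * Real.pi / 3 * eT z s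
          - 4 * ew1 * z * (((s.2:ℝ) ^ 2 - (s.1:ℝ) ^ 2 * z ^ 2) / eD z s ^ 2)
          - 2 * Real.pi ^ 2 / 9 * z * ((s.2:ℝ) / eD z s) =
          8 * Real.pi / 3 * eT z s
          - 4 * ew1 * (z * (((s.2:ℝ) ^ 2 - (s.1:ℝ) ^ 2 * z ^ 2) / eD z s ^ 2))
          - 2 * Real.pi ^ 2 / 9 * (z * ((s.2:ℝ) / eD z s)) := by ring
      rw [e]
      refine le_trans (abs_sub _ _) ?_
      refine le_trans (add_le_add_left (abs_sub _ _) _) ?_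
      rw [abs_mul, abs_mul, abs_mul (2 * Real.pi ^ 2 / 9), abs_of_nonneg (a := 8 * Real.pi / 3) (by positivity),
        abs_of_nonneg (a := 4 * ew1) (by positivity), abs_of_nonneg (a := 2 * Real.pi ^ 2 / 9) (by positivity)]
      have a1 : 8 * Real.pi / 3 * |eT z s| ≤ 8 * Real.pi / 3 * (C0 * z ^ 2) :=
        mul_le_mul_of_nonneg_left hT (by positivity)
      have a2 := mul_le_mul_of_nonneg_left h2 (show 0 ≤ 4 * ew1 by positivity)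
      have a3 := mul_le_mul_of_nonneg_left h1 (show 0 ≤ 2 * Real.pi ^ 2 / 9 by positivity)
      have b1 : 0 ≤ Real.pi * C0 * z ^ 2 := by positivity
      have b2 : 0 ≤ ew1 * z ^ 2 := by positivity
      have b3 : 0 ≤ Real.pi ^ 2 * z ^ 2 := by positivity
      have b4 : 0 ≤ eZ13 * z ^ 2 := by positivity
      nlinarith
    · unfold eV
      have e : -(8 * Real.pi * eT z s) + Real.pi ^ 2 / 2 * z * ((s.2:ℝ) / eD z s) =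
          -(8 * Real.pi * eT z s) + Real.pi ^ 2 / 2 * (z * ((s.2:ℝ) / eD z s)) := by ring
      rw [e]
      refine le_trans (abs_add_le _ _) ?_
      rw [abs_neg, abs_mul, abs_mul (Real.pi ^ 2 / 2), abs_of_nonneg (a := 8 * Real.pi) (by positivity),
        abs_of_nonneg (a := Real.pi ^ 2 / 2) (by positivity)]
      have a1 : 8 * Real.pi * |eT z s| ≤ 8 * Real.pi * (C0 * z ^ 2) :=
        mul_le_mul_of_nonneg_left hT (by positivity)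
      have a3 := mul_le_mul_of_nonneg_left h1 (show 0 ≤ Real.pi ^ 2 / 2 by positivity)
      have b1 : 0 ≤ Real.pi * C0 * z ^ 2 := by positivity
      have b2 : 0 ≤ ew1 * z ^ 2 := by positivity
      have b3 : 0 ≤ Real.pi ^ 2 * z ^ 2 := by positivity
      have b4 : 0 ≤ eZ13 * z ^ 2 := by positivity
      nlinarith
  · obtain ⟨h1, h2, h3⟩ := k_bound z hz s hs
    have hk := abs_int_ge _ hs
    have hq : 0 ≤ z ^ 3 / |(s.1:ℝ)| := by positivity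
    refine ⟨?_, ?_⟩
    · unfold eE0
      have e : -(4 * ew1 * z * ((s.1:ℝ) / eD z s)) = -(4 * ew1 * (z * ((s.1:ℝ) / eD z s))) := by
        ring
      rw [e, abs_neg, abs_mul, abs_of_nonneg (a := 4 * ew1) (by positivity), mul_div_assoc]
      have a1 := mul_le_mul_of_nonneg_left h1 (show 0 ≤ 4 * ew1 by positivity)
      have b1 : 0 ≤ Real.pi * C0 * (z ^ 3 / |(s.1:ℝ)|) := by positivity
      have b2 : 0 ≤ ew1 * (z ^ 3 / |(s.1:ℝ)|) := by positivity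
      have b3 : 0 ≤ Real.pi ^ 2 * (z ^ 3 / |(s.1:ℝ)|) := by positivity
      have b4 : 0 ≤ eZ13 * (z ^ 3 / |(s.1:ℝ)|) := by positivity
      nlinarith
    · unfold eE2
      have e : -(8 * ew1 * z * ((s.1:ℝ) * z ^ 2 * (2 * (s.1:ℝ) ^ 2 * z ^ 2 - 6 * (s.2:ℝ) ^ 2) /
          eD z s ^ 3)) + 4 * eZ13 * z ^ 3 * ((s.1:ℝ) / eD z s) =
          -(8 * ew1 * (z * ((s.1:ℝ) * z ^ 2 * (2 * (s.1:ℝ) ^ 2 * z ^ 2 - 6 * (s.2:ℝ) ^ 2) /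
          eD z s ^ 3))) + 4 * eZ13 * (z ^ 3 * ((s.1:ℝ) / eD z s)) := by
        ring
      rw [e]
      refine le_trans (abs_add_le _ _) ?_
      rw [abs_neg, abs_mul, abs_mul (4 * eZ13), abs_of_nonneg (a := 8 * ew1) (by positivity),
        abs_of_nonneg (a := 4 * eZ13) (by positivity),
        mul_div_assoc (8 * Real.pi * C0 + 60 * ew1 + Real.pi ^ 2 + 4 * eZ13 + 1)]
      have a1 := mul_le_mul_of_nonneg_left h3 (show 0 ≤ 8 * ew1 by positivity)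
      have a2 := mul_le_mul_of_nonneg_left h2 (show 0 ≤ 4 * eZ13 by positivity)
      have b1 : 0 ≤ Real.pi * C0 * (z ^ 3 / |(s.1:ℝ)|) := by positivity
      have b2 : 0 ≤ ew1 * (z ^ 3 / |(s.1:ℝ)|) := by positivity
      have b3 : 0 ≤ Real.pi ^ 2 * (z ^ 3 / |(s.1:ℝ)|) := by positivity
      have b4 : 0 ≤ eZ13 * (z ^ 3 / |(s.1:ℝ)|) := by positivity
      nlinarith

end Pool.Agent.Helper10.EC.E_ED6
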